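import Mathlib

set_option autoImplicit false

open MeasureTheory

namespace Pool.Agent.Q4

/-- Four dimensional Euclidean space. -/
abbrev E4 : Type := EuclideanSpace ℝ (Fin 4)

/-- The standard basis. -/
noncomputable abbrev e (i : Fin 4) : E4 := EuclideanSpace.single i (1 : ℝ)

/-- Directional derivative. -/
noncomputable def D (v : E4) (g : E4 → ℝ) : E4 → ℝ := fun x => fderiv ℝ g x v

/-- Laplacian. -/
noncomputable def lap (g : E4 → ℝ) : E4 → ℝ := fun x => ∑ i, D (e i) (D (e i) g) x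

lemma contDiff_D {g : E4 → ℝ} {m n : WithTop ℕ∞} (v : E4) (hg : ContDiff ℝ n g) (hmn : m + 1 ≤ n) :
    ContDiff ℝ m (D v g) := by
  unfold D
  exact (hg.fderiv_right hmn).clm_apply contDiff_const

lemma contDiff_D_inf {g : E4 → ℝ} (v : E4) (hg : ContDiff ℝ (⊤ : ℕ∞) g) :
    ContDiff ℝ (⊤ : ℕ∞) (D v g) := contDiff_D v hg (by simp)

lemma contDiff_lap_inf {g : E4 → ℝ} (hg : ContDiff ℝ (⊤ : ℕ∞) g) :
    ContDiff ℝ (⊤ : ℕ∞) (lap g) := by
  unfold lap
  exact ContDiff.sum fun i _ => contDiff_D_inf _ (contDiff_D_inf _ hg)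

lemma D_add {f g : E4 → ℝ} (v : E4) (hf : Differentiable ℝ f) (hg : Differentiable ℝ g) :
    D v (fun x => f x + g x) = fun x => D v f x + D v g x := by
  funext x
  unfold D
  rw [fderiv_fun_add (hf x) (hg x)]
  rfl

lemma D_const_mul {f : E4 → ℝ} (v : E4) (c : ℝ) (hf : Differentiable ℝ f) :
    D v (fun x => c * f x) = fun x => c * D v f x := by
  funext x
  unfold D
  rw [fderiv_const_mul (hf x) c]
  rfl

lemma differentiable_D {g : E4 → ℝ} (v : E4) (hg : ContDiff ℝ (⊤ : ℕ∞) g) :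
    Differentiable ℝ (D v g) := (contDiff_D_inf v hg).differentiable (by simp)

lemma lap_add {f g : E4 → ℝ} (hf : ContDiff ℝ (⊤ : ℕ∞) f) (hg : ContDiff ℝ (⊤ : ℕ∞) g) :
    lap (fun x => f x + g x) = fun x => lap f x + lap g x := by
  funext x
  unfold lap
  rw [← Finset.sum_add_distrib]
  refine Finset.sum_congr rfl fun i _ => ?_
  rw [D_add _ (hf.differentiable (by simp)) (hg.differentiable (by simp)),
    D_add _ (differentiable_D _ hf) (differentiable_D _ hg)]

lemma lap_const_mul {f : E4 → ℝ} (c : ℝ) (hf : ContDiff ℝ (⊤ : ℕ∞) f) :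
    lap (fun x => c * f x) = fun x => c * lap f x := by
  funext x
  unfold lap
  rw [Finset.mul_sum]
  refine Finset.sum_congr rfl fun i _ => ?_
  rw [D_const_mul _ c (hf.differentiable (by simp)), D_const_mul _ c (differentiable_D _ hf)]

lemma lap_const (c : ℝ) : lap (fun _ => c) = fun _ => 0 := by
  funext x
  have h : ∀ (c : ℝ) (v : E4), D v (fun _ => c) = fun _ => 0 := by
    intro c v
    funext y
    unfold D
    simp
  unfold lap
  simp [h]

/-- The fourth derivative expression of the problem is the iterated Laplacian. -/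
lemma sum_iteratedFDeriv {g : E4 → ℝ} (hg : ContDiff ℝ (⊤ : ℕ∞) g) (x : E4) :
    ∑ i : Fin 4, ∑ j : Fin 4,
      iteratedFDeriv ℝ 4 g x
        ![(EuclideanSpace.single i (1 : ℝ) : EuclideanSpace ℝ (Fin 4)),
          (EuclideanSpace.single i (1 : ℝ) : EuclideanSpace ℝ (Fin 4)),
          (EuclideanSpace.single j (1 : ℝ) : EuclideanSpace ℝ (Fin 4)),
          (EuclideanSpace.single j (1 : ℝ) : EuclideanSpace ℝ (Fin 4))] = lap (lap g) x := by
  have step : ∀ (n : ℕ) (m : Fin (n + 1) → E4) (y : E4), iteratedFDeriv ℝ (n + 1) g y m =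
      D (m 0) (fun z => iteratedFDeriv ℝ n g z (Fin.tail m)) y := by
    intro n m y
    rw [iteratedFDeriv_succ_apply_left]
    unfold D
    rw [fderiv_continuousMultilinear_apply_const_apply]
    have h1 : ContDiff ℝ 1 (iteratedFDeriv ℝ n g) := hg.iteratedFDeriv_right (by
      norm_cast
      exact le_top)
    exact (h1.differentiable (by simp)) y
  have h4 : ∀ (a b c d : E4), (fun y => iteratedFDeriv ℝ 4 g y ![a, b, c, d]) =
      D a (D b (D c (D d g))) := by
    intro a b c d
    have h0 : (fun z => iteratedFDeriv ℝ 0 g z (Fin.tail ![d])) = g := by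
      funext z
      simp
    have h1 : (fun z => iteratedFDeriv ℝ 1 g z (Fin.tail ![c, d])) = D d g := by
      funext z
      rw [step 0]
      have : Fin.tail ![c, d] = ![d] := by ext i; fin_cases i; rfl
      rw [this, h0]
      rfl
    have h2 : (fun z => iteratedFDeriv ℝ 2 g z (Fin.tail ![b, c, d])) = D c (D d g) := by
      funext z
      rw [step 1]
      have : Fin.tail ![b, c, d] = ![c, d] := by funext i; fin_cases i <;> rfl
      rw [this, h1]
      rfl
    have h3 : (fun z => iteratedFDeriv ℝ 3 g z (Fin.tail ![a, b, c, d])) = D b (D c (D d g)) := by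
      funext z
      rw [step 2]
      have : Fin.tail ![a, b, c, d] = ![b, c, d] := by funext i; fin_cases i <;> rfl
      rw [this, h2]
      rfl
    funext y
    rw [step 3, h3]
    rfl
  have h5 : ∀ i j : Fin 4, iteratedFDeriv ℝ 4 g x
        ![(EuclideanSpace.single i (1 : ℝ) : EuclideanSpace ℝ (Fin 4)),
          (EuclideanSpace.single i (1 : ℝ) : EuclideanSpace ℝ (Fin 4)),
          (EuclideanSpace.single j (1 : ℝ) : EuclideanSpace ℝ (Fin 4)),
          (EuclideanSpace.single j (1 : ℝ) : EuclideanSpace ℝ (Fin 4))] =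
        D (e i) (D (e i) (D (e j) (D (e j) g))) x := fun i j => congrFun (h4 _ _ _ _) x
  simp_rw [h5]
  have hsum : ∀ v : E4, ∀ F : Fin 4 → E4 → ℝ, (∀ j, Differentiable ℝ (F j)) →
      D v (fun y => ∑ j, F j y) = fun y => ∑ j, D v (F j) y := by
    intro v F hF
    funext y
    unfold D
    rw [fderiv_fun_sum fun j _ => (hF j) y]
    simp
  unfold lap
  refine Finset.sum_congr rfl fun i _ => ?_
  rw [hsum (e i) (fun j => D (e j) (D (e j) g))
    (fun j => differentiable_D _ (contDiff_D_inf _ hg))]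
  rw [hsum (e i) (fun j => D (e i) (D (e j) (D (e j) g)))
    (fun j => differentiable_D _ (contDiff_D_inf _ (contDiff_D_inf _ hg)))]

/-- The shifted square norm. -/
noncomputable def sq (m : ℝ) (p x : E4) : ℝ := m + ‖x - p‖ ^ 2

lemma contDiff_sq (m : ℝ) (p : E4) {n : WithTop ℕ∞} : ContDiff ℝ n (sq m p) := by
  unfold sq
  exact contDiff_const.add ((contDiff_id.sub contDiff_const).norm_sq ℝ)

lemma hasFDerivAt_sq (m : ℝ) (p x : E4) :
    HasFDerivAt (sq m p) (2 • (innerSL ℝ) (x - p)) x := by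
  unfold sq
  have h1 : HasFDerivAt (fun y : E4 => y - p) (ContinuousLinearMap.id ℝ E4) x :=
    (hasFDerivAt_id x).sub_const p
  have h2 := h1.norm_sq
  have h3 := h2.const_add m
  exact h3.congr_fderiv (by ext v; simp)

lemma inner_e (x : E4) (i : Fin 4) : (innerSL ℝ) x (e i) = x i := by
  rw [innerSL_apply_apply]
  rw [EuclideanSpace.inner_single_right]
  simp

lemma hasFDerivAt_coord (p x : E4) (i : Fin 4) :
    HasFDerivAt (fun y : E4 => (y - p) i) (EuclideanSpace.proj (𝕜 := ℝ) i) x := by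
  have h1 : HasFDerivAt (fun y : E4 => y - p) (ContinuousLinearMap.id ℝ E4) x :=
    (hasFDerivAt_id x).sub_const p
  exact ((EuclideanSpace.proj (𝕜 := ℝ) i).hasFDerivAt (x := x - p)).comp x h1

/-- Laplacian of a function of the square norm. -/
lemma lap_comp_sq {m : ℝ} {p : E4} {φ φ' φ'' : ℝ → ℝ} (hpos : ∀ x, 0 < sq m p x)
    (h1 : ∀ t, 0 < t → HasDerivAt φ (φ' t) t) (h2 : ∀ t, 0 < t → HasDerivAt φ' (φ'' t) t) :
    lap (fun x => φ (sq m p x)) =
      fun x => 8 * φ' (sq m p x) + 4 * (sq m p x - m) * φ'' (sq m p x) := by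
  funext x
  have hD1 : ∀ i, D (e i) (fun x => φ (sq m p x)) = fun x => 2 * ((x - p) i) * φ' (sq m p x) := by
    intro i
    funext y
    unfold D
    have h := (h1 _ (hpos y)).comp_hasFDerivAt y (hasFDerivAt_sq m p y)
    have h' : HasFDerivAt (fun x => φ (sq m p x)) (φ' (sq m p y) • (2 • (innerSL ℝ) (y - p))) y := h
    rw [h'.fderiv]
    simp only [_root_.smul_apply, inner_e, smul_eq_mul, nsmul_eq_mul]
    push_cast
    ring
  have hD2 : ∀ i, D (e i) (fun x => 2 * ((x - p) i) * φ' (sq m p x)) x =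
      2 * φ' (sq m p x) + 4 * ((x - p) i) ^ 2 * φ'' (sq m p x) := by
    intro i
    unfold D
    have ha := (hasFDerivAt_coord p x i).const_mul 2
    have hb : HasFDerivAt (fun x => φ' (sq m p x)) (φ'' (sq m p x) • (2 • (innerSL ℝ) (x - p))) x :=
      (h2 _ (hpos x)).comp_hasFDerivAt x (hasFDerivAt_sq m p x)
    have hc : HasFDerivAt (fun x => 2 * ((x - p) i) * φ' (sq m p x)) _ x := ha.mul hb
    rw [hc.fderiv]
    simp only [_root_.add_apply, _root_.smul_apply, inner_e, smul_eq_mul,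
      nsmul_eq_mul]
    have h3 : (EuclideanSpace.proj (𝕜 := ℝ) i : E4 →L[ℝ] ℝ) (e i) = 1 := by simp [e]
    rw [h3]
    push_cast
    ring
  unfold lap
  simp_rw [hD1, hD2]
  rw [Finset.sum_add_distrib, ← Finset.sum_mul]
  have h4 : ∑ i : Fin 4, ((x - p) i) ^ 2 = sq m p x - m := by
    unfold sq
    rw [EuclideanSpace.real_norm_sq_eq]
    ring
  have h5 : ∑ i : Fin 4, 4 * ((x - p) i) ^ 2 * φ'' (sq m p x) =
      4 * (∑ i : Fin 4, ((x - p) i) ^ 2) * φ'' (sq m p x) := by
    rw [Finset.mul_sum, Finset.sum_mul]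
  rw [h5, h4]
  simp
  norm_num

/-- The iterated Laplacian of the logarithm of the square norm. -/
lemma lap_lap_log {m : ℝ} (hm : 0 < m) (p : E4) :
    lap (lap (fun x => Real.log (sq m p x))) = fun x => -(96 * m ^ 2 / (sq m p x) ^ 4) := by
  have hpos : ∀ x, 0 < sq m p x := fun x => by unfold sq; positivity
  have h1 := lap_comp_sq (m := m) (p := p) (φ := Real.log) (φ' := fun t => t⁻¹)
    (φ'' := fun t => -(t ^ 2)⁻¹) hpos (fun t ht => Real.hasDerivAt_log ht.ne')
    (fun t ht => hasDerivAt_inv ht.ne')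
  have h1' : lap (fun x => Real.log (sq m p x)) =
      fun x => (fun t : ℝ => 4 * t⁻¹ + 4 * m * (t ^ 2)⁻¹) (sq m p x) := by
    rw [h1]
    funext x
    have hx := (hpos x).ne'
    field_simp
    ring
  rw [h1']
  have h2 := lap_comp_sq (m := m) (p := p) (φ := fun t : ℝ => 4 * t⁻¹ + 4 * m * (t ^ 2)⁻¹)
    (φ' := fun t => -4 * (t ^ 2)⁻¹ - 8 * m * (t ^ 3)⁻¹)
    (φ'' := fun t => 8 * (t ^ 3)⁻¹ + 24 * m * (t ^ 4)⁻¹) hpos
    (fun t ht => by
      have ha := (hasDerivAt_inv ht.ne').const_mul 4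
      have hb := ((hasDerivAt_pow 2 t).inv (pow_ne_zero 2 ht.ne')).const_mul (4 * m)
      have hc := ha.add hb
      refine hc.congr_deriv ?_
      have := ht.ne'
      simp
      field_simp
      ring)
    (fun t ht => by
      have ha := ((hasDerivAt_pow 2 t).inv (pow_ne_zero 2 ht.ne')).const_mul (-4)
      have hb := ((hasDerivAt_pow 3 t).inv (pow_ne_zero 3 ht.ne')).const_mul (8 * m)
      have hc := ha.sub hb
      refine hc.congr_deriv ?_
      have := ht.ne'
      simp
      field_simp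
      ring)
  rw [h2]
  funext x
  have hx := (hpos x).ne'
  field_simp
  ring

/-- The square norm is biharmonic. -/
lemma lap_lap_sq (p : E4) : lap (lap (fun x => ‖x - p‖ ^ 2)) = fun _ => 0 := by
  have hpos : ∀ x, 0 < sq 1 p x := fun x => by unfold sq; positivity
  have h1 := lap_comp_sq (m := 1) (p := p) (φ := fun t => t - 1) (φ' := fun _ => 1)
    (φ'' := fun _ => 0) hpos (fun t _ => (hasDerivAt_id t).sub_const 1)
    (fun t _ => hasDerivAt_const t 1)
  have h2 : (fun x => ‖x - p‖ ^ 2) = fun x => (fun t : ℝ => t - 1) (sq 1 p x) := by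
    funext x
    simp [sq]
  rw [h2, h1]
  have h3 : (fun x : E4 => 8 * (1 : ℝ) + 4 * (sq 1 p x - 1) * 0) = fun _ => 8 := by
    funext x; ring
  rw [h3, lap_const]

end Pool.Agent.Q4
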