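import Mathlib
import Pool.Agent.Q4.Lap

set_option autoImplicit false

open MeasureTheory Filter Topology Set

namespace Pool.Agent.Q4

lemma finrank_E4 : Module.finrank ℝ E4 = 4 := by simp

lemma volume_ball_one : (volume : Measure E4).real (Metric.ball 0 1) = Real.pi ^ 2 / 2 := by
  rw [Measure.real, EuclideanSpace.volume_ball]
  have h1 : Real.Gamma ((Fintype.card (Fin 4) : ℝ) / 2 + 1) = 2 := by
    have : ((Fintype.card (Fin 4) : ℝ) / 2 + 1) = ((2 : ℕ) : ℝ) + 1 := by norm_num
    rw [this, Real.Gamma_nat_eq_factorial]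
    norm_num
  rw [h1]
  have h2 : √Real.pi ^ Fintype.card (Fin 4) = Real.pi ^ 2 := by
    rw [Fintype.card_fin]
    have := Real.sq_sqrt Real.pi_pos.le
    calc √Real.pi ^ 4 = (√Real.pi ^ 2) ^ 2 := by ring
      _ = Real.pi ^ 2 := by rw [this]
  rw [h2]
  simp only [ENNReal.ofReal_one, one_pow, one_mul]
  rw [ENNReal.toReal_ofReal (by positivity)]

lemma integral_radial : ∫ y in Ioi (0 : ℝ), y ^ 3 / (1 + y ^ 2) ^ 4 = 1 / 12 := by
  have h1 : ∀ x ∈ Ioi (0 : ℝ), HasDerivAt (fun r : ℝ => -(1 + 3 * r ^ 2) / (12 * (1 + r ^ 2) ^ 3))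
      (x ^ 3 / (1 + x ^ 2) ^ 4) x := by
    intro x _
    have hx : (0 : ℝ) < 1 + x ^ 2 := by positivity
    have ha : HasDerivAt (fun r : ℝ => -(1 + 3 * r ^ 2)) (-(3 * (2 * x))) x := by
      have := (((hasDerivAt_pow 2 x).const_mul 3).const_add 1).neg
      refine this.congr_deriv ?_
      simp
    have hb : HasDerivAt (fun r : ℝ => 12 * (1 + r ^ 2) ^ 3) (12 * (3 * (1 + x ^ 2) ^ 2 * (2 * x))) x := by
      have := (((hasDerivAt_pow 2 x).const_add 1).pow 3).const_mul 12
      refine this.congr_deriv ?_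
      simp
    refine (ha.div hb (by positivity)).congr_deriv ?_
    field_simp
    ring
  have h2 : Tendsto (fun r : ℝ => -(1 + 3 * r ^ 2) / (12 * (1 + r ^ 2) ^ 3)) atTop (𝓝 0) := by
    have h3 : Tendsto (fun r : ℝ => 1 + r ^ 2) atTop atTop :=
      tendsto_atTop_add_const_left _ _ (tendsto_pow_atTop (by norm_num))
    have h4 : Tendsto (fun r : ℝ => (1 + r ^ 2)⁻¹) atTop (𝓝 0) := h3.inv_tendsto_atTop
    have h5 : Tendsto (fun r : ℝ => -(1 / 4) * ((1 + r ^ 2)⁻¹) ^ 2 + (1 / 6) * ((1 + r ^ 2)⁻¹) ^ 3)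
        atTop (𝓝 (-(1 / 4) * 0 ^ 2 + (1 / 6) * 0 ^ 3)) :=
      ((h4.pow 2).const_mul _).add ((h4.pow 3).const_mul _)
    have h6 : (-(1 / 4) * 0 ^ 2 + (1 / 6) * 0 ^ 3 : ℝ) = 0 := by norm_num
    rw [h6] at h5
    refine h5.congr fun r => ?_
    have hr : (0 : ℝ) < 1 + r ^ 2 := by positivity
    field_simp
    ring
  have h3 := integral_Ioi_of_hasDerivAt_of_nonneg (a := 0)
    (g := fun r : ℝ => -(1 + 3 * r ^ 2) / (12 * (1 + r ^ 2) ^ 3))
    (g' := fun x : ℝ => x ^ 3 / (1 + x ^ 2) ^ 4) (l := 0) ?_ h1 ?_ h2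
  · rw [h3]; norm_num
  · refine ContinuousAt.continuousWithinAt ?_
    have : ContinuousAt (fun r : ℝ => -(1 + 3 * r ^ 2) / (12 * (1 + r ^ 2) ^ 3)) 0 := by
      refine ContinuousAt.div (by fun_prop) (by fun_prop) (by norm_num)
    exact this
  · intro x hx
    have : (0 : ℝ) < x := hx
    positivity

lemma integral_kernel : ∫ z : E4, (1 : ℝ) / (1 + ‖z‖ ^ 2) ^ 4 = Real.pi ^ 2 / 6 := by
  have h := integral_fun_norm_addHaar (volume : Measure E4) (fun r : ℝ => (1 : ℝ) / (1 + r ^ 2) ^ 4)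
  rw [h, finrank_E4, volume_ball_one]
  have h2 : ∀ y : ℝ, y ^ (4 - 1) • (1 / (1 + y ^ 2) ^ 4) = y ^ 3 / (1 + y ^ 2) ^ 4 := by
    intro y
    simp [div_eq_mul_inv]
  simp_rw [h2]
  rw [integral_radial]
  simp
  ring

lemma tendsto_aux : Tendsto (fun r : ℝ => r ^ 4 * (6 / Real.pi ^ 2 * (1 / (1 + r ^ 2) ^ 4))) atTop
    (𝓝 0) := by
  have h3 : Tendsto (fun r : ℝ => 1 + r ^ 2) atTop atTop :=
    tendsto_atTop_add_const_left _ _ (tendsto_pow_atTop (by norm_num))
  have h4 : Tendsto (fun r : ℝ => (1 + r ^ 2)⁻¹) atTop (𝓝 0) := h3.inv_tendsto_atTop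
  have h5 : Tendsto (fun r : ℝ => 6 / Real.pi ^ 2 * ((1 + r ^ 2)⁻¹) ^ 2) atTop
      (𝓝 (6 / Real.pi ^ 2 * 0 ^ 2)) := (h4.pow 2).const_mul _
  have h6 : (6 / Real.pi ^ 2 * 0 ^ 2 : ℝ) = 0 := by norm_num
  rw [h6] at h5
  refine tendsto_of_tendsto_of_tendsto_of_le_of_le tendsto_const_nhds h5 (fun r => ?_) (fun r => ?_)
  · positivity
  · have hr : (0 : ℝ) < 1 + r ^ 2 := by positivity
    have h7 : r ^ 4 * (1 / (1 + r ^ 2) ^ 4) ≤ ((1 + r ^ 2)⁻¹) ^ 2 := by
      rw [mul_one_div, inv_pow, div_le_iff₀ (by positivity)]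
      have h8 : ((1 + r ^ 2) ^ 2)⁻¹ * (1 + r ^ 2) ^ 4 = (1 + r ^ 2) ^ 2 := by
        field_simp
      rw [h8]
      nlinarith [sq_nonneg r]
    have h8 : 0 ≤ 6 / Real.pi ^ 2 := by positivity
    calc r ^ 4 * (6 / Real.pi ^ 2 * (1 / (1 + r ^ 2) ^ 4))
        = 6 / Real.pi ^ 2 * (r ^ 4 * (1 / (1 + r ^ 2) ^ 4)) := by ring
      _ ≤ _ := mul_le_mul_of_nonneg_left h7 h8

/-- Peak limit for the bubbles. -/
lemma tendsto_peak {g : E4 → ℝ} (hg : Integrable g) (hg0 : ContinuousAt g 0) :
    Tendsto (fun μ : ℝ => ∫ z : E4, 96 * μ ^ 4 / (μ ^ 2 + ‖z‖ ^ 2) ^ 4 * g z) (𝓝[>] 0)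
      (𝓝 (16 * Real.pi ^ 2 * g 0)) := by
  have hpi := Real.pi_pos
  have h1 := tendsto_integral_comp_smul_smul_of_integrable (μ := (volume : Measure E4))
    (φ := fun z : E4 => 6 / Real.pi ^ 2 * (1 / (1 + ‖z‖ ^ 2) ^ 4)) (fun z => by positivity)
    (by
      rw [integral_const_mul, integral_kernel]
      field_simp)
    (by
      rw [finrank_E4]
      exact tendsto_aux.comp tendsto_norm_cobounded_atTop) hg hg0
  have h2 := (h1.comp tendsto_inv_nhdsGT_zero).const_mul (16 * Real.pi ^ 2)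
  refine h2.congr' ?_
  filter_upwards [self_mem_nhdsWithin] with μ hμ
  have hμ' : (0 : ℝ) < μ := hμ
  simp only [Function.comp]
  rw [← integral_const_mul]
  congr 1
  funext z
  rw [finrank_E4, norm_smul, norm_inv, Real.norm_eq_abs, abs_of_pos hμ', smul_eq_mul]
  have h3 : 0 < μ ^ 2 + ‖z‖ ^ 2 := by positivity
  have h4 : 1 + (μ⁻¹ * ‖z‖) ^ 2 = (μ ^ 2 + ‖z‖ ^ 2) / μ ^ 2 := by
    field_simp
  rw [h4]
  field_simp
  ring

lemma locallyIntegrable_log : LocallyIntegrable (fun z : E4 => Real.log ‖z‖) := by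
  rw [locallyIntegrable_iff]
  intro K hK
  obtain ⟨R, hR⟩ := hK.isBounded.subset_ball (0 : E4)
  have h1 : Integrable (fun z : E4 => (fun r : ℝ => (Iio R).indicator (fun r => Real.log r) r) ‖z‖) := by
    rw [integrable_fun_norm_addHaar (volume : Measure E4)
      (f := fun r : ℝ => (Iio R).indicator (fun r => Real.log r) r), finrank_E4]
    have h2 : (fun y : ℝ => y ^ (4 - 1) • (Iio R).indicator (fun r => Real.log r) y) =
        (Iio R).indicator (fun y => y ^ 2 * (y * Real.log y)) := by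
      funext y
      by_cases hy : y ∈ Iio R
      · rw [indicator_of_mem hy, indicator_of_mem hy, smul_eq_mul]
        ring
      · rw [indicator_of_notMem hy, indicator_of_notMem hy, smul_zero]
    rw [h2]
    have h3 : Continuous fun y : ℝ => y ^ 2 * (y * Real.log y) :=
      (continuous_pow 2).mul Real.continuous_mul_log
    have h4 : IntegrableOn (fun y : ℝ => y ^ 2 * (y * Real.log y)) (Ioi 0 ∩ Iio R) := by
      refine (h3.continuousOn.integrableOn_compact (isCompact_Icc (a := 0) (b := R))).mono_set ?_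
      rintro y ⟨hy1, hy2⟩
      exact ⟨le_of_lt hy1, le_of_lt hy2⟩
    rw [IntegrableOn, integrable_indicator_iff measurableSet_Iio, IntegrableOn,
      Measure.restrict_restrict measurableSet_Iio, inter_comm]
    exact h4
  refine (h1.integrableOn (s := K)).congr_fun ?_ hK.measurableSet
  intro z hz
  have : ‖z‖ ∈ Iio R := by simpa using hR hz
  simp only
  rw [indicator_of_mem this]

/-- Integration by parts for the Laplacian. -/
lemma integral_mul_lap {F h : E4 → ℝ} (hF : ContDiff ℝ (⊤ : ℕ∞) F) (hh : ContDiff ℝ (⊤ : ℕ∞) h)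
    (hc : HasCompactSupport h) : ∫ x, F x * lap h x = ∫ x, lap F x * h x := by
  have hsuppD : ∀ (v : E4) (k : E4 → ℝ), HasCompactSupport k → HasCompactSupport (D v k) := by
    intro v k hk
    exact (hk.fderiv (𝕜 := ℝ)).comp_left (g := fun A : E4 →L[ℝ] ℝ => A v) (by simp)
  have key : ∀ (v : E4) (F h : E4 → ℝ), ContDiff ℝ (⊤ : ℕ∞) F → ContDiff ℝ (⊤ : ℕ∞) h →
      HasCompactSupport h → ∫ x, F x * D v h x = - ∫ x, D v F x * h x := by
    intro v F h hF hh hc
    refine integral_mul_fderiv_eq_neg_fderiv_mul_of_integrable ?_ ?_ ?_ ?_ ?_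
    · exact (((contDiff_D_inf v hF).continuous.mul hh.continuous)).integrable_of_hasCompactSupport
        (hc.mul_left)
    · exact ((hF.continuous.mul (contDiff_D_inf v hh).continuous)).integrable_of_hasCompactSupport
        ((hsuppD v h hc).mul_left)
    · exact (hF.continuous.mul hh.continuous).integrable_of_hasCompactSupport hc.mul_left
    · exact fun x _ => (hF.differentiable (by simp)) x
    · exact fun x _ => (hh.differentiable (by simp)) x
  unfold lap
  simp_rw [Finset.mul_sum, Finset.sum_mul]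
  rw [integral_finsetSum, integral_finsetSum]
  · refine Finset.sum_congr rfl fun i _ => ?_
    rw [key (e i) F (D (e i) h) hF (contDiff_D_inf _ hh) (hsuppD _ _ hc),
      key (e i) (D (e i) F) h (contDiff_D_inf _ hF) hh hc, neg_neg]
  · intro i _
    exact (((contDiff_D_inf _ (contDiff_D_inf _ hF)).continuous.mul
      hh.continuous)).integrable_of_hasCompactSupport hc.mul_left
  · intro i _
    exact ((hF.continuous.mul (contDiff_D_inf _ (contDiff_D_inf _ hh)).continuous)
      ).integrable_of_hasCompactSupport ((hsuppD _ _ (hsuppD _ _ hc)).mul_left)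

lemma hasCompactSupport_D (v : E4) {k : E4 → ℝ} (hk : HasCompactSupport k) :
    HasCompactSupport (D v k) :=
  (hk.fderiv (𝕜 := ℝ)).comp_left (g := fun A : E4 →L[ℝ] ℝ => A v) (by simp)

lemma hasCompactSupport_lap {k : E4 → ℝ} (hk : HasCompactSupport k) :
    HasCompactSupport (lap k) := by
  have h : ∀ s : Finset (Fin 4), HasCompactSupport (fun x => ∑ i ∈ s, D (e i) (D (e i) k) x) := by
    intro s
    classical
    induction s using Finset.induction_on with
    | empty =>
      simp only [Finset.sum_empty]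
      exact HasCompactSupport.zero
    | insert a s has ih =>
      simp_rw [Finset.sum_insert has]
      exact (hasCompactSupport_D _ (hasCompactSupport_D _ hk)).add ih
  exact h Finset.univ

/-- The logarithm is, up to a constant, the fundamental solution of the bilaplacian. -/
lemma integral_log_mul {g : E4 → ℝ} (hg : ContDiff ℝ (⊤ : ℕ∞) g) (hc : HasCompactSupport g) :
    ∫ z : E4, Real.log ‖z‖ * lap (lap g) z = -(8 * Real.pi ^ 2) * g 0 := by
  set h := lap (lap g) with hh
  have hhc : Continuous h := (contDiff_lap_inf (contDiff_lap_inf hg)).continuous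
  have hhs : HasCompactSupport h := hasCompactSupport_lap (hasCompactSupport_lap hc)
  -- first limit
  have hlim1 : Tendsto (fun δ : ℝ => ∫ z : E4, Real.log (δ ^ 2 + ‖z‖ ^ 2) * h z) (𝓝[>] 0)
      (𝓝 (-(16 * Real.pi ^ 2 * g 0))) := by
    have h1 := (tendsto_peak (hg.continuous.integrable_of_hasCompactSupport hc)
      hg.continuous.continuousAt).neg
    refine h1.congr' ?_
    filter_upwards [self_mem_nhdsWithin] with δ hδ
    have hδ' : (0 : ℝ) < δ := hδ
    have hsq : (fun z : E4 => Real.log (δ ^ 2 + ‖z‖ ^ 2)) = fun z => Real.log (sq (δ ^ 2) 0 z) := by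
      funext z
      simp [sq]
    have hFs : ContDiff ℝ (⊤ : ℕ∞) (fun z : E4 => Real.log (sq (δ ^ 2) 0 z)) := by
      refine (contDiff_sq _ _).log fun z => ?_
      unfold sq
      positivity
    have h2 : ∫ z : E4, Real.log (δ ^ 2 + ‖z‖ ^ 2) * h z =
        ∫ z : E4, lap (lap (fun z => Real.log (sq (δ ^ 2) 0 z))) z * g z := by
      have h3 : ∀ z, Real.log (δ ^ 2 + ‖z‖ ^ 2) = Real.log (sq (δ ^ 2) 0 z) := congrFun hsq
      simp_rw [h3]
      rw [hh, integral_mul_lap hFs (contDiff_lap_inf hg) (hasCompactSupport_lap hc),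
        integral_mul_lap (contDiff_lap_inf hFs) hg hc]
    rw [h2, lap_lap_log (by positivity) 0, ← integral_neg]
    congr 1
    funext z
    simp only [sq, sub_zero]
    rw [← pow_mul]
    ring
  -- second limit
  have hlim2 : Tendsto (fun δ : ℝ => ∫ z : E4, Real.log (δ ^ 2 + ‖z‖ ^ 2) * h z) (𝓝[>] 0)
      (𝓝 (∫ z : E4, 2 * Real.log ‖z‖ * h z)) := by
    refine tendsto_integral_filter_of_dominated_convergence
      (fun z => (|2 * Real.log ‖z‖| + Real.log (1 + ‖z‖ ^ 2)) * |h z|) ?_ ?_ ?_ ?_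
    · filter_upwards [self_mem_nhdsWithin] with δ hδ
      have hδ' : (0 : ℝ) < δ := hδ
      refine Continuous.aestronglyMeasurable (Continuous.mul (Continuous.log (by fun_prop) ?_) hhc)
      intro z
      positivity
    · have h01 : Ioo (0 : ℝ) 1 ∈ 𝓝[>] (0 : ℝ) := Ioo_mem_nhdsGT one_pos
      filter_upwards [h01] with δ hδ
      have hne : ∀ᵐ z : E4, z ≠ 0 := by
        rw [ae_iff]
        simp
      filter_upwards [hne] with z hz
      rw [norm_mul, Real.norm_eq_abs, Real.norm_eq_abs]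
      refine mul_le_mul_of_nonneg_right ?_ (abs_nonneg _)
      have hz' : 0 < ‖z‖ := norm_pos_iff.2 hz
      have hlow : 2 * Real.log ‖z‖ ≤ Real.log (δ ^ 2 + ‖z‖ ^ 2) := by
        rw [← Nat.cast_two, ← Real.log_pow]
        exact Real.log_le_log (by positivity) (by nlinarith [sq_nonneg δ])
      have hup : Real.log (δ ^ 2 + ‖z‖ ^ 2) ≤ Real.log (1 + ‖z‖ ^ 2) := by
        have hd1 := hδ.1
        have hd2 := hδ.2
        exact Real.log_le_log (by positivity) (by nlinarith)
      have hnn : 0 ≤ Real.log (1 + ‖z‖ ^ 2) := Real.log_nonneg (by nlinarith [sq_nonneg ‖z‖])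
      rw [abs_le]
      constructor
      · have := neg_abs_le (2 * Real.log ‖z‖)
        linarith
      · have := abs_nonneg (2 * Real.log ‖z‖)
        linarith
    · have h1 : Integrable fun z : E4 => Real.log ‖z‖ * h z :=
        locallyIntegrable_log.integrable_smul_right_of_hasCompactSupport hhc hhs
      have h2 : Integrable fun z : E4 => Real.log (1 + ‖z‖ ^ 2) * h z := by
        refine Continuous.integrable_of_hasCompactSupport
          (Continuous.mul (Continuous.log (by fun_prop) fun z => by positivity) hhc) hhs.mul_left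
      have h3 := (h1.norm.const_mul 2).add h2.norm
      refine h3.congr (Eventually.of_forall fun z => ?_)
      simp only [Pi.add_apply, norm_mul, Real.norm_eq_abs, abs_mul]
      have hnn : 0 ≤ Real.log (1 + ‖z‖ ^ 2) := Real.log_nonneg (by nlinarith [sq_nonneg ‖z‖])
      rw [abs_of_nonneg hnn, abs_two]
      ring
    · have hne : ∀ᵐ z : E4, z ≠ 0 := by
        rw [ae_iff]
        simp
      filter_upwards [hne] with z hz
      have hz' : 0 < ‖z‖ := norm_pos_iff.2 hz
      refine Tendsto.mul_const _ ?_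
      have h1 : ContinuousAt (fun δ : ℝ => Real.log (δ ^ 2 + ‖z‖ ^ 2)) 0 := by
        refine ContinuousAt.log (by fun_prop) ?_
        positivity
      have h2 := h1.tendsto.mono_left (nhdsWithin_le_nhds (s := Ioi 0))
      convert h2 using 2
      simp [Real.log_pow]
  have huniq := tendsto_nhds_unique hlim1 hlim2
  have h5 : ∫ z : E4, 2 * Real.log ‖z‖ * h z = 2 * ∫ z : E4, Real.log ‖z‖ * h z := by
    rw [← integral_const_mul]
    congr 1
    funext z
    ring
  rw [h5] at huniq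
  linarith

end Pool.Agent.Q4
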