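import Mathlib
import Pool.Agent.Q4.Potential

set_option autoImplicit false

open MeasureTheory Filter Topology Set

namespace Pool.Agent.Q4

/-- Convolution with the logarithm. -/
noncomputable def conv (f : E4 → ℝ) : E4 → ℝ :=
  convolution (fun z : E4 => Real.log ‖z‖) f (ContinuousLinearMap.mul ℝ ℝ) volume

lemma conv_apply (f : E4 → ℝ) (x : E4) : conv f x = ∫ t : E4, Real.log ‖t‖ * f (x - t) := rfl

lemma contDiff_conv {f : E4 → ℝ} (hf : ContDiff ℝ (⊤ : ℕ∞) f) (hc : HasCompactSupport f) :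
    ContDiff ℝ (⊤ : ℕ∞) (conv f) :=
  hc.contDiff_convolution_right _ locallyIntegrable_log hf

lemma D_conv {f : E4 → ℝ} (hf : ContDiff ℝ (⊤ : ℕ∞) f) (hc : HasCompactSupport f) (v : E4) :
    D v (conv f) = conv (D v f) := by
  funext x
  have h1 : HasFDerivAt (conv f) _ x := hc.hasFDerivAt_convolution_right
    (ContinuousLinearMap.mul ℝ ℝ) locallyIntegrable_log (hf.of_le (by simp)) x
  unfold D
  rw [h1.fderiv]
  exact convolution_precompR_apply (ContinuousLinearMap.mul ℝ ℝ) locallyIntegrable_log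
    (hc.fderiv (𝕜 := ℝ)) (hf.continuous_fderiv (by simp)) x v

lemma integrable_conv {f : E4 → ℝ} (hf : Continuous f) (hc : HasCompactSupport f) (x : E4) :
    Integrable fun t : E4 => Real.log ‖t‖ * f (x - t) := by
  have h1 : Continuous fun t : E4 => f (x - t) := by fun_prop
  have h2 : HasCompactSupport fun t : E4 => f (x - t) := by
    exact hc.comp_homeomorph (Homeomorph.subLeft x)
  exact locallyIntegrable_log.integrable_smul_right_of_hasCompactSupport h1 h2

lemma lap_conv {f : E4 → ℝ} (hf : ContDiff ℝ (⊤ : ℕ∞) f) (hc : HasCompactSupport f) :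
    lap (conv f) = conv (lap f) := by
  funext x
  have h1 : ∀ i, D (e i) (D (e i) (conv f)) = conv (D (e i) (D (e i) f)) := by
    intro i
    rw [D_conv hf hc, D_conv (contDiff_D_inf _ hf) (hasCompactSupport_D _ hc)]
  unfold lap
  simp_rw [h1, conv_apply, Finset.mul_sum]
  rw [integral_finsetSum]
  intro i _
  exact integrable_conv (contDiff_D_inf _ (contDiff_D_inf _ hf)).continuous
    (hasCompactSupport_D _ (hasCompactSupport_D _ hc)) x

lemma D_reflect {f : E4 → ℝ} (hf : ContDiff ℝ (⊤ : ℕ∞) f) (x v : E4) :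
    D v (fun t => f (x - t)) = fun t => - D v f (x - t) := by
  funext t
  unfold D
  have h1 : HasFDerivAt (fun t : E4 => x - t) (-(ContinuousLinearMap.id ℝ E4)) t :=
    (hasFDerivAt_id t).const_sub x
  have h2 : HasFDerivAt f (fderiv ℝ f (x - t)) (x - t) :=
    ((hf.differentiable (by simp)) (x - t)).hasFDerivAt
  have h3 : HasFDerivAt (fun t => f (x - t)) _ t := h2.comp t h1
  rw [h3.fderiv]
  simp

lemma lap_reflect {f : E4 → ℝ} (hf : ContDiff ℝ (⊤ : ℕ∞) f) (x : E4) :
    lap (fun t => f (x - t)) = fun t => lap f (x - t) := by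
  funext t
  unfold lap
  refine Finset.sum_congr rfl fun i _ => ?_
  rw [D_reflect hf]
  have h1 : (fun t => - D (e i) f (x - t)) = fun t => (-1) * D (e i) f (x - t) := by
    funext t; ring
  rw [h1, D_const_mul _ _ (by
    have h2 : ContDiff ℝ (⊤ : ℕ∞) fun t => D (e i) f (x - t) :=
      (contDiff_D_inf (e i) hf).comp (contDiff_const.sub contDiff_id)
    exact h2.differentiable (by simp)),
    D_reflect (contDiff_D_inf _ hf)]
  ring

lemma lap_lap_conv {f : E4 → ℝ} (hf : ContDiff ℝ (⊤ : ℕ∞) f) (hc : HasCompactSupport f) :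
    lap (lap (conv f)) = fun x => -(8 * Real.pi ^ 2) * f x := by
  rw [lap_conv hf hc, lap_conv (contDiff_lap_inf hf) (hasCompactSupport_lap hc)]
  funext x
  rw [conv_apply]
  have hg : ContDiff ℝ (⊤ : ℕ∞) (fun t => f (x - t)) := hf.comp (contDiff_const.sub contDiff_id)
  have hgc : HasCompactSupport (fun t => f (x - t)) := hc.comp_homeomorph (Homeomorph.subLeft x)
  have h1 : lap (lap fun t => f (x - t)) = fun t => lap (lap f) (x - t) := by
    rw [lap_reflect hf, lap_reflect (contDiff_lap_inf hf)]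
  have h2 := integral_log_mul hg hgc
  rw [h1] at h2
  rw [h2, sub_zero]

/-- The constant of the potential estimate. -/
noncomputable def CP : ℝ := ∫ t in Metric.closedBall (0 : E4) 4, |Real.log ‖t‖|

lemma CP_nonneg : 0 ≤ CP := integral_nonneg fun _ => abs_nonneg _

lemma conv_bound {f : E4 → ℝ} {M : ℝ} (hf : Continuous f) (hc : HasCompactSupport f)
    (hsupp : ∀ x, f x ≠ 0 → ‖x‖ ≤ 3) (hM : ∀ x, |f x| ≤ M) {x : E4} (hx : ‖x‖ ≤ 1) :
    |conv f x| ≤ CP * M := by
  rw [conv_apply]
  have hM0 : 0 ≤ M := (abs_nonneg _).trans (hM 0)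
  have h1 : |∫ t : E4, Real.log ‖t‖ * f (x - t)| ≤ ∫ t : E4, |Real.log ‖t‖ * f (x - t)| :=
    abs_integral_le_integral_abs
  refine h1.trans ?_
  have hint : IntegrableOn (fun t : E4 => |Real.log ‖t‖|) (Metric.closedBall (0 : E4) 4) := by
    have := locallyIntegrable_log.integrableOn_isCompact (isCompact_closedBall (0 : E4) 4)
    exact this.abs
  have h2 : ∫ t : E4, |Real.log ‖t‖ * f (x - t)| ≤
      ∫ t : E4, (Metric.closedBall (0 : E4) 4).indicator (fun t => |Real.log ‖t‖| * M) t := by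
    refine integral_mono (integrable_conv hf hc x).abs ?_ fun t => ?_
    · exact (integrable_indicator_iff Metric.isClosed_closedBall.measurableSet).2 (hint.mul_const M)
    · simp only
      by_cases ht : t ∈ Metric.closedBall (0 : E4) 4
      · rw [indicator_of_mem ht, abs_mul]
        exact mul_le_mul_of_nonneg_left (hM _) (abs_nonneg _)
      · rw [indicator_of_notMem ht]
        have h3 : f (x - t) = 0 := by
          by_contra hne
          have h4 := hsupp _ hne
          apply ht
          rw [mem_closedBall_zero_iff]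
          have h5 : t = x - (x - t) := by abel
          rw [h5]
          refine (norm_sub_le _ _).trans ?_
          linarith
        rw [h3, mul_zero, abs_zero]
  refine h2.trans (le_of_eq ?_)
  rw [integral_indicator Metric.isClosed_closedBall.measurableSet, integral_mul_const]
  rfl

/-- The potential: a solution of the inhomogeneous equation. -/
noncomputable def pot (f : E4 → ℝ) : E4 → ℝ := fun x => -(1 / (8 * Real.pi ^ 2)) * conv f x

lemma contDiff_pot {f : E4 → ℝ} (hf : ContDiff ℝ (⊤ : ℕ∞) f) (hc : HasCompactSupport f) :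
    ContDiff ℝ (⊤ : ℕ∞) (pot f) := contDiff_const.mul (contDiff_conv hf hc)

lemma lap_lap_pot {f : E4 → ℝ} (hf : ContDiff ℝ (⊤ : ℕ∞) f) (hc : HasCompactSupport f) :
    lap (lap (pot f)) = f := by
  unfold pot
  rw [lap_const_mul _ (contDiff_conv hf hc), lap_const_mul _ (contDiff_lap_inf (contDiff_conv hf hc)),
    lap_lap_conv hf hc]
  funext x
  have := Real.pi_pos
  field_simp

lemma const_le_one : 1 / (8 * Real.pi ^ 2) ≤ 1 := by
  have h := Real.pi_gt_three
  rw [div_le_one (by positivity)]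
  nlinarith

lemma pot_bound {f : E4 → ℝ} {M : ℝ} (hf : Continuous f) (hc : HasCompactSupport f)
    (hsupp : ∀ x, f x ≠ 0 → ‖x‖ ≤ 3) (hM : ∀ x, |f x| ≤ M) {x : E4} (hx : ‖x‖ ≤ 1) :
    |pot f x| ≤ CP * M := by
  unfold pot
  have h1 := conv_bound hf hc hsupp hM hx
  rw [abs_mul, abs_neg, abs_of_pos (by positivity)]
  calc 1 / (8 * Real.pi ^ 2) * |conv f x| ≤ 1 * |conv f x| :=
        mul_le_mul_of_nonneg_right const_le_one (abs_nonneg _)
    _ ≤ CP * M := by rw [one_mul]; exact h1

lemma fderiv_pot_bound {f : E4 → ℝ} {M : ℝ} (hf : ContDiff ℝ (⊤ : ℕ∞) f) (hc : HasCompactSupport f)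
    (hsupp : ∀ x, fderiv ℝ f x ≠ 0 → ‖x‖ ≤ 3) (hM : ∀ x, ‖fderiv ℝ f x‖ ≤ M) {x : E4}
    (hx : ‖x‖ ≤ 1) : ‖fderiv ℝ (pot f) x‖ ≤ CP * M := by
  have hM0 : 0 ≤ M := (norm_nonneg _).trans (hM 0)
  refine ContinuousLinearMap.opNorm_le_bound _ (mul_nonneg CP_nonneg hM0) fun v => ?_
  have h1 : fderiv ℝ (pot f) x v = -(1 / (8 * Real.pi ^ 2)) * conv (D v f) x := by
    have h2 : D v (pot f) = fun x => -(1 / (8 * Real.pi ^ 2)) * D v (conv f) x := by
      unfold pot
      exact D_const_mul v _ ((contDiff_conv hf hc).differentiable (by simp))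
    have h3 : D v (pot f) x = -(1 / (8 * Real.pi ^ 2)) * D v (conv f) x := congrFun h2 x
    rw [D_conv hf hc] at h3
    exact h3
  have h4 := conv_bound (M := M * ‖v‖) (contDiff_D_inf v hf).continuous (hasCompactSupport_D v hc)
    (fun y hy => hsupp y (by
      rintro h0
      apply hy
      unfold D
      rw [h0]
      rfl)) (fun y => by
      unfold D
      have := (fderiv ℝ f y).le_opNorm v
      rw [Real.norm_eq_abs] at this
      exact this.trans (mul_le_mul_of_nonneg_right (hM y) (norm_nonneg v))) hx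
  rw [h1, norm_mul, norm_neg, Real.norm_eq_abs, Real.norm_eq_abs, abs_of_pos (by positivity)]
  calc 1 / (8 * Real.pi ^ 2) * |conv (D v f) x| ≤ 1 * |conv (D v f) x| :=
        mul_le_mul_of_nonneg_right const_le_one (abs_nonneg _)
    _ ≤ CP * (M * ‖v‖) := by rw [one_mul]; exact h4
    _ = CP * M * ‖v‖ := by ring

end Pool.Agent.Q4
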