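import Mathlib
import Pool.Agent.Q4.Pot

set_option autoImplicit false

open MeasureTheory Filter Topology Set Metric

namespace Pool.Agent.Q4

/-- Partial derivative in the space variable of a function on the product. -/
lemma fderiv_slice {H : ℝ × E4 → ℝ} (hH : ContDiff ℝ (⊤ : ℕ∞) H) (μ : ℝ) (x : E4) :
    fderiv ℝ (fun y => H (μ, y)) x = (fderiv ℝ H (μ, x)).comp (ContinuousLinearMap.inr ℝ ℝ E4) := by
  have h1 : HasFDerivAt H (fderiv ℝ H (μ, x)) (μ, x) :=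
    ((hH.differentiable (by simp)) (μ, x)).hasFDerivAt
  have h2 : HasFDerivAt (fun y : E4 => ((μ, y) : ℝ × E4)) (ContinuousLinearMap.inr ℝ ℝ E4) x :=
    hasFDerivAt_prodMk_right μ x
  exact (h1.comp x h2).fderiv

/-- Tube lemma for functions and their space derivatives. -/
lemma tube {H : ℝ × E4 → ℝ} (hH : ContDiff ℝ (⊤ : ℕ∞) H) {K : Set E4} (hK : IsCompact K) {η : ℝ}
    (h : ∀ x ∈ K, |H (0, x)| < η ∧ ‖fderiv ℝ (fun y => H (0, y)) x‖ < η) :
    ∀ᶠ μ in 𝓝 (0 : ℝ), ∀ x ∈ K, |H (μ, x)| < η ∧ ‖fderiv ℝ (fun y => H (μ, y)) x‖ < η := by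
  refine hK.eventually_forall_of_forall_eventually fun x hx => ?_
  obtain ⟨h1, h2⟩ := h x hx
  have hc1 : Continuous fun z : ℝ × E4 => |H z| := hH.continuous.abs
  have hc2 : Continuous fun z : ℝ × E4 =>
      ‖(fderiv ℝ H z).comp (ContinuousLinearMap.inr ℝ ℝ E4)‖ :=
    ((hH.continuous_fderiv (by simp)).clm_comp continuous_const).norm
  have e1 : ∀ᶠ z in 𝓝 ((0 : ℝ), x), |H z| < η := hc1.continuousAt.eventually_lt_const h1
  have e2 : ∀ᶠ z in 𝓝 ((0 : ℝ), x), ‖(fderiv ℝ H z).comp (ContinuousLinearMap.inr ℝ ℝ E4)‖ < η := by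
    refine hc2.continuousAt.eventually_lt_const ?_
    have h5 := h2
    rw [fderiv_slice hH] at h5
    exact h5
  filter_upwards [e1, e2] with z h3 h4
  refine ⟨h3, ?_⟩
  rw [fderiv_slice hH]
  exact h4

/-- A fixed bump function. -/
noncomputable def psi : ContDiffBump (0 : E4) := ⟨1 / 2, 1, by norm_num, by norm_num⟩

/-- The bump at scale `ρ` around `p`. -/
noncomputable def bump (ρ : ℝ) (p x : E4) : ℝ := psi (ρ⁻¹ • (x - p))

lemma contDiff_bump (ρ : ℝ) (p : E4) : ContDiff ℝ (⊤ : ℕ∞) (bump ρ p) :=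
  psi.contDiff.comp ((contDiff_id.sub contDiff_const).const_smul ρ⁻¹)

lemma bump_nonneg (ρ : ℝ) (p x : E4) : 0 ≤ bump ρ p x := psi.nonneg

lemma bump_le_one (ρ : ℝ) (p x : E4) : bump ρ p x ≤ 1 := psi.le_one

lemma bump_eq_one {ρ : ℝ} (hρ : 0 < ρ) {p x : E4} (hx : ‖x - p‖ ≤ ρ / 2) : bump ρ p x = 1 := by
  unfold bump
  apply psi.one_of_mem_closedBall
  rw [mem_closedBall_zero_iff, norm_smul, norm_inv, Real.norm_eq_abs, abs_of_pos hρ]
  show ρ⁻¹ * ‖x - p‖ ≤ 1 / 2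
  rw [inv_mul_le_iff₀ hρ]
  linarith

lemma bump_eq_zero {ρ : ℝ} (hρ : 0 < ρ) {p x : E4} (hx : ρ ≤ ‖x - p‖) : bump ρ p x = 0 := by
  unfold bump
  apply psi.zero_of_le_dist
  rw [dist_zero_right, norm_smul, norm_inv, Real.norm_eq_abs, abs_of_pos hρ]
  show 1 ≤ ρ⁻¹ * ‖x - p‖
  rw [le_inv_mul_iff₀ hρ]
  linarith

lemma exists_fderiv_bump_bound : ∃ C : ℝ, 0 ≤ C ∧ ∀ ρ : ℝ, 0 < ρ → ∀ p x : E4,
    ‖fderiv ℝ (bump ρ p) x‖ ≤ C / ρ := by
  have hcont : Continuous (fderiv ℝ (psi : E4 → ℝ)) :=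
    (psi.contDiff (n := (⊤ : ℕ∞))).continuous_fderiv (by simp)
  obtain ⟨C, hC⟩ := hcont.bounded_above_of_compact_support (psi.hasCompactSupport.fderiv (𝕜 := ℝ))
  refine ⟨C, (norm_nonneg _).trans (hC 0), fun ρ hρ p x => ?_⟩
  have h1 : HasFDerivAt (fun y : E4 => ρ⁻¹ • (y - p)) (ρ⁻¹ • ContinuousLinearMap.id ℝ E4) x :=
    ((hasFDerivAt_id x).sub_const p).const_smul ρ⁻¹
  have h2 : HasFDerivAt (psi : E4 → ℝ) (fderiv ℝ psi (ρ⁻¹ • (x - p))) (ρ⁻¹ • (x - p)) :=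
    (((psi.contDiff (n := (⊤ : ℕ∞))).differentiable (by simp)) _).hasFDerivAt
  have h3 : HasFDerivAt (bump ρ p) _ x := h2.comp x h1
  rw [h3.fderiv]
  have h4 : (fderiv ℝ psi (ρ⁻¹ • (x - p))).comp (ρ⁻¹ • ContinuousLinearMap.id ℝ E4) =
      ρ⁻¹ • fderiv ℝ psi (ρ⁻¹ • (x - p)) := by
    ext v
    simp
  rw [h4, norm_smul, norm_inv, Real.norm_eq_abs, abs_of_pos hρ, div_eq_inv_mul]
  exact mul_le_mul_of_nonneg_left (hC _) (by positivity)

/-- Cutting off a function vanishing to first order. -/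
lemma cut {g : E4 → ℝ} (hg : ContDiff ℝ (⊤ : ℕ∞) g) {p : E4} (h0 : g p = 0)
    (h1 : fderiv ℝ g p = 0) {η : ℝ} (hη : 0 < η) :
    ∃ ρ₀ : ℝ, 0 < ρ₀ ∧ ∀ ρ : ℝ, 0 < ρ → ρ ≤ ρ₀ → ∀ x : E4,
      |bump ρ p x * g x| < η ∧ ‖fderiv ℝ (fun y => bump ρ p y * g y) x‖ < η := by
  obtain ⟨C, hC0, hC⟩ := exists_fderiv_bump_bound
  -- Lipschitz bound of the derivative
  have hgd : Differentiable ℝ g := hg.differentiable (by simp)
  have hd2 : DifferentiableAt ℝ (fderiv ℝ g) p :=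
    ((hg.fderiv_right (m := (⊤ : ℕ∞)) (by simp)).differentiable (by simp)) p
  obtain ⟨M, hM⟩ := hd2.isBigO_sub.bound
  rw [h1] at hM
  rw [Metric.eventually_nhds_iff] at hM
  obtain ⟨r, hr, hM⟩ := hM
  set M' : ℝ := max M 0 with hM'
  have hM'0 : 0 ≤ M' := le_max_right _ _
  have hb1 : ∀ y, ‖y - p‖ < r → ‖fderiv ℝ g y‖ ≤ M' * ‖y - p‖ := by
    intro y hy
    have := hM (by rw [dist_eq_norm]; exact hy)
    rw [sub_zero] at this
    exact this.trans (mul_le_mul_of_nonneg_right (le_max_left _ _) (norm_nonneg _))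
  have hb0 : ∀ y, ‖y - p‖ < r → |g y| ≤ M' * ‖y - p‖ ^ 2 := by
    intro y hy
    have hconv : Convex ℝ (closedBall p ‖y - p‖) := convex_closedBall _ _
    have hmv := hconv.norm_image_sub_le_of_norm_fderiv_le (f := g) (C := M' * ‖y - p‖)
      (fun z _ => hgd z) (fun z hz => by
        rw [mem_closedBall, dist_eq_norm] at hz
        exact (hb1 z (hz.trans_lt hy)).trans (mul_le_mul_of_nonneg_left hz hM'0))
      (mem_closedBall_self (norm_nonneg _)) (y := y) (x := p)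
      (by rw [mem_closedBall, dist_eq_norm])
    rw [h0, sub_zero, Real.norm_eq_abs] at hmv
    calc |g y| ≤ M' * ‖y - p‖ * ‖y - p‖ := hmv
      _ = M' * ‖y - p‖ ^ 2 := by ring
  -- the choice of the scale
  set T : ℝ := M' * (1 + C) + 1 with hT
  have hTpos : 0 < T := by positivity
  refine ⟨min (min (r / 2) 1) (η / (2 * T)), by positivity, fun ρ hρ hρ0 x => ?_⟩
  have hρr : ρ < r := by
    have := hρ0.trans ((min_le_left _ _).trans (min_le_left _ _))
    linarith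
  have hρ1 : ρ ≤ 1 := hρ0.trans ((min_le_left _ _).trans (min_le_right _ _))
  have hρη : ρ * T ≤ η / 2 := by
    have h3 := hρ0.trans (min_le_right _ _)
    rw [le_div_iff₀ (by positivity)] at h3
    linarith
  have hMρ : M' * ρ * (1 + C) < η := by
    have : M' * ρ * (1 + C) = ρ * (M' * (1 + C)) := by ring
    rw [this]
    have h4 : ρ * (M' * (1 + C)) ≤ ρ * T := mul_le_mul_of_nonneg_left (by rw [hT]; linarith) hρ.le
    linarith
  by_cases hx : ‖x - p‖ ≤ ρ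
  · have hxr : ‖x - p‖ < r := hx.trans_lt hρr
    have hg0 : |g x| ≤ M' * ρ ^ 2 := (hb0 x hxr).trans
      (mul_le_mul_of_nonneg_left (pow_le_pow_left₀ (norm_nonneg _) hx 2) hM'0)
    have hg1 : ‖fderiv ℝ g x‖ ≤ M' * ρ := (hb1 x hxr).trans (mul_le_mul_of_nonneg_left hx hM'0)
    constructor
    · rw [abs_mul, abs_of_nonneg (bump_nonneg _ _ _)]
      calc bump ρ p x * |g x| ≤ 1 * (M' * ρ ^ 2) :=
            mul_le_mul (bump_le_one _ _ _) hg0 (abs_nonneg _) zero_le_one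
        _ ≤ M' * ρ * (1 + C) := by
            have h5 : ρ ^ 2 ≤ ρ := by nlinarith
            have h6 : M' * ρ ^ 2 ≤ M' * ρ := mul_le_mul_of_nonneg_left h5 hM'0
            have h7 : 0 ≤ M' * ρ * C := by positivity
            linarith
        _ < η := hMρ
    · have hbd : DifferentiableAt ℝ (bump ρ p) x := ((contDiff_bump ρ p).differentiable (by simp)) x
      rw [fderiv_fun_mul hbd (hgd x)]
      calc ‖bump ρ p x • fderiv ℝ g x + g x • fderiv ℝ (bump ρ p) x‖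
          ≤ ‖bump ρ p x • fderiv ℝ g x‖ + ‖g x • fderiv ℝ (bump ρ p) x‖ := norm_add_le _ _
        _ ≤ 1 * (M' * ρ) + M' * ρ ^ 2 * (C / ρ) := by
            rw [norm_smul, norm_smul, Real.norm_eq_abs, Real.norm_eq_abs,
              abs_of_nonneg (bump_nonneg _ _ _)]
            exact add_le_add (mul_le_mul (bump_le_one _ _ _) hg1 (norm_nonneg _) zero_le_one)
              (mul_le_mul hg0 (hC ρ hρ p x) (norm_nonneg _) (by positivity))
        _ = M' * ρ * (1 + C) := by field_simp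
        _ < η := hMρ
  · rw [not_le] at hx
    have hev : ∀ᶠ y in 𝓝 x, bump ρ p y * g y = 0 := by
      have hc : ContinuousAt (fun y : E4 => ‖y - p‖) x := by fun_prop
      filter_upwards [hc.eventually_const_lt hx] with y hy
      rw [bump_eq_zero hρ (le_of_lt hy), zero_mul]
    refine ⟨by rw [hev.self_of_nhds, abs_zero]; exact hη, ?_⟩
    have : (fun y => bump ρ p y * g y) =ᶠ[𝓝 x] fun _ => (0 : ℝ) := hev
    rw [this.fderiv_eq]
    simpa using hη

end Pool.Agent.Q4
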