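import Mathlib
import Pool.Agent.Q4.Cut

set_option autoImplicit false

open MeasureTheory Filter Topology Set Metric

namespace Pool.Agent.Q4

section defs
variable (p : E4)

/-- `μ² + |x - q|²` as a function on the product. -/
noncomputable def S (q : E4) (z : ℝ × E4) : ℝ := z.1 ^ 2 + ‖z.2 - q‖ ^ 2

/-- `μ² + 4 |p|²`. -/
noncomputable def bb (z : ℝ × E4) : ℝ := z.1 ^ 2 + 4 * ‖p‖ ^ 2

/-- The relative error of the sum of two bubbles. -/
noncomputable def W (z : ℝ × E4) : ℝ :=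
  (S p z ^ 4 + S (-p) z ^ 4) / bb p z ^ 4 * Real.exp (-(8 / bb p z * (‖z.2‖ ^ 2 - ‖p‖ ^ 2))) - 1

/-- The rescaled density. -/
noncomputable def N (z : ℝ × E4) : ℝ :=
  96 * bb p z ^ 4 / (S p z ^ 4 * S (-p) z ^ 4) * Real.exp (8 / bb p z * (‖z.2‖ ^ 2 - ‖p‖ ^ 2))

lemma contDiff_S (q : E4) : ContDiff ℝ (⊤ : ℕ∞) (S q) := by
  unfold S
  exact (contDiff_fst.pow 2).add ((contDiff_snd.sub contDiff_const).norm_sq ℝ)

lemma contDiff_bb : ContDiff ℝ (⊤ : ℕ∞) (bb p) := by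
  unfold bb
  exact (contDiff_fst.pow 2).add contDiff_const

variable {p}

lemma bb_pos (hp : p ≠ 0) (z : ℝ × E4) : 0 < bb p z := by
  unfold bb
  have := norm_pos_iff.2 hp
  positivity

lemma S_nonneg (q : E4) (z : ℝ × E4) : 0 ≤ S q z := by unfold S; positivity

lemma contDiff_W (hp : p ≠ 0) : ContDiff ℝ (⊤ : ℕ∞) (W p) := by
  unfold W
  have hb := contDiff_bb p
  have hb0 : ∀ z, bb p z ≠ 0 := fun z => (bb_pos hp z).ne'
  have h1 : ContDiff ℝ (⊤ : ℕ∞) fun z : ℝ × E4 => (S p z ^ 4 + S (-p) z ^ 4) / bb p z ^ 4 :=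
    (((contDiff_S p).pow 4).add ((contDiff_S (-p)).pow 4)).div (hb.pow 4)
      fun z => pow_ne_zero 4 (hb0 z)
  have h2 : ContDiff ℝ (⊤ : ℕ∞) fun z : ℝ × E4 => 8 / bb p z * (‖z.2‖ ^ 2 - ‖p‖ ^ 2) :=
    (contDiff_const.div hb hb0).mul ((contDiff_snd.norm_sq ℝ).sub contDiff_const)
  exact (h1.mul (h2.neg.exp)).sub contDiff_const

lemma contDiffAt_N (hp : p ≠ 0) {z : ℝ × E4} (h1 : S p z ≠ 0) (h2 : S (-p) z ≠ 0) :
    ContDiffAt ℝ (⊤ : ℕ∞) (N p) z := by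
  unfold N
  have hb := contDiff_bb p
  have hb0 : ∀ z, bb p z ≠ 0 := fun z => (bb_pos hp z).ne'
  have h3 : ContDiffAt ℝ (⊤ : ℕ∞) (fun z : ℝ × E4 => 96 * bb p z ^ 4 / (S p z ^ 4 * S (-p) z ^ 4)) z :=
    (contDiffAt_const.mul (hb.pow 4).contDiffAt).div
      ((((contDiff_S p).pow 4).mul ((contDiff_S (-p)).pow 4)).contDiffAt)
      (mul_ne_zero (pow_ne_zero 4 h1) (pow_ne_zero 4 h2))
  have h4 : ContDiff ℝ (⊤ : ℕ∞) fun z : ℝ × E4 => 8 / bb p z * (‖z.2‖ ^ 2 - ‖p‖ ^ 2) :=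
    (contDiff_const.div hb hb0).mul ((contDiff_snd.norm_sq ℝ).sub contDiff_const)
  exact h3.mul h4.exp.contDiffAt

lemma N_mul_one_add_W (hp : p ≠ 0) {z : ℝ × E4} (h1 : S p z ≠ 0) (h2 : S (-p) z ≠ 0) :
    N p z * (1 + W p z) = 96 / S p z ^ 4 + 96 / S (-p) z ^ 4 := by
  have hb0 : bb p z ≠ 0 := (bb_pos hp z).ne'
  have he : Real.exp (8 / bb p z * (‖z.2‖ ^ 2 - ‖p‖ ^ 2)) *
      Real.exp (-(8 / bb p z * (‖z.2‖ ^ 2 - ‖p‖ ^ 2))) = 1 := by
    rw [← Real.exp_add, add_neg_cancel, Real.exp_zero]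
  have h3 : N p z * (1 + W p z) = 96 * bb p z ^ 4 / (S p z ^ 4 * S (-p) z ^ 4) *
      ((S p z ^ 4 + S (-p) z ^ 4) / bb p z ^ 4) *
      (Real.exp (8 / bb p z * (‖z.2‖ ^ 2 - ‖p‖ ^ 2)) *
      Real.exp (-(8 / bb p z * (‖z.2‖ ^ 2 - ‖p‖ ^ 2)))) := by
    unfold N W
    ring
  rw [h3, he, mul_one]
  field_simp
  ring

lemma W_neg : W (-p) = W p := by
  funext z
  unfold W bb
  rw [neg_neg, norm_neg, add_comm (S (-p) z ^ 4)]

/-- The balancing identities. -/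
lemma W_zero (hp : p ≠ 0) : W p (0, p) = 0 := by
  unfold W S bb
  have hp' := norm_pos_iff.2 hp
  have h1 : ‖p - -p‖ = 2 * ‖p‖ := by
    rw [sub_neg_eq_add, ← two_smul ℝ p, norm_smul]
    norm_num
  simp only [sub_self, norm_zero, h1]
  simp
  field_simp
  ring

lemma fderiv_W_zero (hp : p ≠ 0) : fderiv ℝ (fun y => W p (0, y)) p = 0 := by
  have hp' := norm_pos_iff.2 hp
  have h1 : ‖p - -p‖ = 2 * ‖p‖ := by
    rw [sub_neg_eq_add, ← two_smul ℝ p, norm_smul]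
    norm_num
  set c : ℝ := 4 * ‖p‖ ^ 2 with hc
  have hc0 : c ≠ 0 := by positivity
  have hfun : (fun y => W p (0, y)) = fun y =>
      (c ^ 4)⁻¹ * ((‖y - p‖ ^ 2) ^ 4 + (‖y - -p‖ ^ 2) ^ 4) *
      Real.exp (-(8 / c * (‖y‖ ^ 2 - ‖p‖ ^ 2))) - 1 := by
    funext y
    simp only [W, S, bb, hc]
    rw [div_eq_inv_mul]
    norm_num
  rw [hfun]
  have hA1 : HasFDerivAt (fun y : E4 => ‖y - p‖ ^ 2) (2 • (innerSL ℝ) (p - p)) p := by
    have := hasFDerivAt_sq 0 p p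
    refine this.congr_of_eventuallyEq (Eventually.of_forall fun y => ?_)
    simp [sq]
  have hA2 : HasFDerivAt (fun y : E4 => ‖y - -p‖ ^ 2) (2 • (innerSL ℝ) (p - -p)) p := by
    have := hasFDerivAt_sq 0 (-p) p
    refine this.congr_of_eventuallyEq (Eventually.of_forall fun y => ?_)
    simp [sq]
  have hA3 : HasFDerivAt (fun y : E4 => ‖y‖ ^ 2) (2 • (innerSL ℝ) p) p := by
    have := hasFDerivAt_sq 0 0 p
    rw [sub_zero] at this
    refine this.congr_of_eventuallyEq (Eventually.of_forall fun y => ?_)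
    simp [sq]
  have hN := (((hA1.pow 4).add (hA2.pow 4)).const_mul ((c ^ 4)⁻¹))
  have hE := (((hA3.sub_const (‖p‖ ^ 2)).const_mul (8 / c)).neg).exp
  have hT : HasFDerivAt (fun y => (c ^ 4)⁻¹ * ((‖y - p‖ ^ 2) ^ 4 + (‖y - -p‖ ^ 2) ^ 4) *
      Real.exp (-(8 / c * (‖y‖ ^ 2 - ‖p‖ ^ 2))) - 1) _ p := (hN.mul hE).sub_const 1
  rw [hT.fderiv]
  ext v
  have h2 : (innerSL ℝ) (p - -p) v = 2 * (innerSL ℝ) p v := by
    rw [sub_neg_eq_add, ← two_smul ℝ p]
    simp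
  simp only [_root_.add_apply, _root_.smul_apply, _root_.neg_apply, Pi.add_apply, h2, smul_eq_mul, nsmul_eq_mul,
    sub_self, norm_zero, h1, map_zero]
  simp
  have h3 : (2 * ‖p‖) ^ 2 = c := by rw [hc]; ring
  rw [h3]
  field_simp
  ring

lemma fderiv_W_zero_neg (hp : p ≠ 0) : fderiv ℝ (fun y => W p (0, y)) (-p) = 0 := by
  have h := fderiv_W_zero (p := -p) (neg_ne_zero.2 hp)
  rwa [W_neg] at h

lemma W_zero_neg (hp : p ≠ 0) : W p (0, -p) = 0 := by
  have h := W_zero (p := -p) (neg_ne_zero.2 hp)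
  rwa [W_neg] at h

/-- The cutoff around the two centres. -/
noncomputable def chi (p : E4) (ρ : ℝ) (x : E4) : ℝ := bump ρ p x + bump ρ (-p) x

lemma contDiff_chi (ρ : ℝ) : ContDiff ℝ (⊤ : ℕ∞) (chi p ρ) :=
  (contDiff_bump ρ p).add (contDiff_bump ρ (-p))

lemma exists_rho (hp : p ≠ 0) {η : ℝ} (hη : 0 < η) : ∃ ρ : ℝ, 0 < ρ ∧ ρ ≤ ‖p‖ ∧ ∀ x : E4,
    |chi p ρ x * W p (0, x)| < η ∧ ‖fderiv ℝ (fun y => chi p ρ y * W p (0, y)) x‖ < η := by
  have hW : ContDiff ℝ (⊤ : ℕ∞) fun y : E4 => W p (0, y) :=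
    (contDiff_W hp).comp (contDiff_const.prodMk contDiff_id)
  obtain ⟨ρ₁, h1, h1'⟩ := cut hW (W_zero hp) (fderiv_W_zero hp) (half_pos hη)
  obtain ⟨ρ₂, h2, h2'⟩ := cut hW (W_zero_neg hp) (fderiv_W_zero_neg hp) (half_pos hη)
  have hp' := norm_pos_iff.2 hp
  refine ⟨min (min ρ₁ ρ₂) ‖p‖, by positivity, min_le_right _ _, fun x => ?_⟩
  set ρ := min (min ρ₁ ρ₂) ‖p‖ with hρ
  have hρ0 : 0 < ρ := by positivity
  obtain ⟨a1, a2⟩ := h1' ρ hρ0 ((min_le_left _ _).trans (min_le_left _ _)) x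
  obtain ⟨b1, b2⟩ := h2' ρ hρ0 ((min_le_left _ _).trans (min_le_right _ _)) x
  constructor
  · unfold chi
    rw [add_mul]
    exact (abs_add_le _ _).trans_lt (by linarith)
  · have hfun : (fun y => chi p ρ y * W p (0, y)) =
        fun y => bump ρ p y * W p (0, y) + bump ρ (-p) y * W p (0, y) := by
      funext y
      unfold chi
      ring
    rw [hfun, fderiv_fun_add]
    · exact (norm_add_le _ _).trans_lt (by linarith)
    · exact (((contDiff_bump ρ p).mul hW).differentiable (by simp)) x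
    · exact (((contDiff_bump ρ (-p)).mul hW).differentiable (by simp)) x

/-- The outer cutoff. -/
noncomputable def zeta : ContDiffBump (0 : E4) := ⟨1, 2, by norm_num, by norm_num⟩

/-- The density of the correction, as a function on the product. -/
noncomputable def FF (p : E4) (ρ : ℝ) (z : ℝ × E4) : ℝ :=
  z.1 ^ 4 * ((chi p ρ z.2 - 1) * N p z * W p z * zeta z.2)

lemma chi_eq_one (hp : p ≠ 0) {ρ : ℝ} (hρ : 0 < ρ) (hρp : ρ ≤ ‖p‖) {x : E4}
    (hx : ‖x - p‖ ≤ ρ / 2 ∨ ‖x - -p‖ ≤ ρ / 2) : chi p ρ x = 1 := by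
  have h1 : ‖p - -p‖ = 2 * ‖p‖ := by
    rw [sub_neg_eq_add, ← two_smul ℝ p, norm_smul]
    norm_num
  unfold chi
  rcases hx with h | h
  · rw [bump_eq_one hρ h, bump_eq_zero hρ]
    · norm_num
    · have h2 : p - -p = (x - -p) - (x - p) := by abel
      have h3 := norm_sub_le (x - -p) (x - p)
      rw [← h2, h1] at h3
      linarith
  · rw [bump_eq_one hρ h, bump_eq_zero hρ]
    · norm_num
    · have h2 : p - -p = (x - -p) - (x - p) := by abel
      have h3 := norm_sub_le (x - -p) (x - p)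
      rw [← h2, h1] at h3
      linarith

lemma contDiff_FF (hp : p ≠ 0) {ρ : ℝ} (hρ : 0 < ρ) (hρp : ρ ≤ ‖p‖) :
    ContDiff ℝ (⊤ : ℕ∞) (FF p ρ) := by
  rw [contDiff_iff_contDiffAt]
  intro z
  by_cases hz : ‖z.2 - p‖ < ρ / 2 ∨ ‖z.2 - -p‖ < ρ / 2
  · have hev : FF p ρ =ᶠ[𝓝 z] fun _ => (0 : ℝ) := by
      have hc1 : ContinuousAt (fun w : ℝ × E4 => ‖w.2 - p‖) z := by fun_prop
      have hc2 : ContinuousAt (fun w : ℝ × E4 => ‖w.2 - -p‖) z := by fun_prop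
      rcases hz with h | h
      · filter_upwards [hc1.eventually_lt_const h] with w hw
        unfold FF
        rw [chi_eq_one hp hρ hρp (Or.inl (le_of_lt hw))]
        ring
      · filter_upwards [hc2.eventually_lt_const h] with w hw
        unfold FF
        rw [chi_eq_one hp hρ hρp (Or.inr (le_of_lt hw))]
        ring
    exact contDiffAt_const.congr_of_eventuallyEq hev
  · push Not at hz
    have h1 : S p z ≠ 0 := by
      unfold S
      have : 0 < ‖z.2 - p‖ := by linarith [hz.1]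
      positivity
    have h2 : S (-p) z ≠ 0 := by
      unfold S
      have : 0 < ‖z.2 - -p‖ := by linarith [hz.2]
      positivity
    unfold FF
    refine (contDiffAt_fst.pow 4).mul ((((?_ : ContDiffAt ℝ (⊤ : ℕ∞) _ z).mul
      (contDiffAt_N hp h1 h2)).mul (contDiff_W hp).contDiffAt).mul ?_)
    · exact (((contDiff_chi ρ).comp contDiff_snd).sub contDiff_const).contDiffAt
    · exact (zeta.contDiff.comp contDiff_snd).contDiffAt

lemma FF_eq_zero {ρ : ℝ} {z : ℝ × E4} (hz : 2 ≤ ‖z.2‖) : FF p ρ z = 0 := by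
  unfold FF
  have : zeta z.2 = 0 := zeta.zero_of_le_dist (by rw [dist_zero_right]; exact hz)
  rw [this, mul_zero, mul_zero]

lemma FF_of_le_one {ρ : ℝ} {z : ℝ × E4} (hz : ‖z.2‖ ≤ 1) :
    FF p ρ z = z.1 ^ 4 * ((chi p ρ z.2 - 1) * N p z * W p z) := by
  unfold FF
  have : zeta z.2 = 1 := zeta.one_of_mem_closedBall (by rw [mem_closedBall_zero_iff]; exact hz)
  rw [this, mul_one]

end defs

/-- Mass of a bubble in an open ball around the origin. -/
lemma tendsto_mass (q : E4) {r : ℝ} (hq : ‖q‖ < r) :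
    Tendsto (fun μ : ℝ => ∫ x in ball (0 : E4) r, 96 * μ ^ 4 / (μ ^ 2 + ‖x - q‖ ^ 2) ^ 4) (𝓝[>] 0)
      (𝓝 (16 * Real.pi ^ 2)) := by
  set B : Set E4 := (fun z : E4 => z + q) ⁻¹' ball 0 r with hB
  have hBo : IsOpen B := isOpen_ball.preimage (by fun_prop)
  have h0 : (0 : E4) ∈ B := by simp [hB, hq]
  have hBsub : B ⊆ ball (0 : E4) (r + ‖q‖) := by
    intro z hz
    rw [mem_ball_zero_iff]
    have h1 : ‖z + q‖ < r := mem_ball_zero_iff.1 hz
    have h2 : ‖z‖ ≤ ‖z + q‖ + ‖q‖ := by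
      have := norm_sub_le (z + q) q
      rwa [add_sub_cancel_right] at this
    linarith
  have hBfin : volume B ≠ ⊤ := ((measure_mono hBsub).trans_lt measure_ball_lt_top).ne
  have hint : Integrable (B.indicator fun _ => (1 : ℝ)) :=
    (integrable_indicator_iff hBo.measurableSet).2 (integrableOn_const hBfin)
  have hcont : ContinuousAt (B.indicator fun _ => (1 : ℝ)) 0 := by
    have : (B.indicator fun _ => (1 : ℝ)) =ᶠ[𝓝 0] fun _ => 1 := by
      filter_upwards [hBo.mem_nhds h0] with z hz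
      exact indicator_of_mem hz _
    exact continuousAt_const.congr this.symm
  have h1 := tendsto_peak hint hcont
  rw [indicator_of_mem h0, mul_one] at h1
  refine h1.congr fun μ => ?_
  have h2 : ∀ z : E4, 96 * μ ^ 4 / (μ ^ 2 + ‖z‖ ^ 2) ^ 4 * B.indicator (fun _ => (1 : ℝ)) z =
      (ball (0 : E4) r).indicator (fun x => 96 * μ ^ 4 / (μ ^ 2 + ‖x - q‖ ^ 2) ^ 4) (z + q) := by
    intro z
    by_cases hz : z ∈ B
    · have hz' : z + q ∈ ball (0 : E4) r := hz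
      rw [indicator_of_mem hz, indicator_of_mem hz', mul_one, add_sub_cancel_right]
    · have hz' : z + q ∉ ball (0 : E4) r := hz
      rw [indicator_of_notMem hz, indicator_of_notMem hz', mul_zero]
  simp_rw [h2]
  rw [integral_add_right_eq_self (μ := (volume : Measure E4))
    (fun x => (ball (0 : E4) r).indicator (fun x => 96 * μ ^ 4 / (μ ^ 2 + ‖x - q‖ ^ 2) ^ 4) x) q]
  rw [integral_indicator measurableSet_ball]

end Pool.Agent.Q4
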