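import Mathlib
import Pool.Agent.Q4.Ansatz

set_option autoImplicit false

open MeasureTheory Filter Topology Set Metric

namespace Pool.Agent.Q4

/-- The explicit part of the solution. -/
noncomputable def u0 (p : E4) (μ : ℝ) (x : E4) : ℝ :=
  (Real.log (2 * μ * bb p (μ, x)) + -(2 / bb p (μ, x) * ‖p‖ ^ 2)) +
    (2 / bb p (μ, x) * ‖x - 0‖ ^ 2 + ((-1) * Real.log (sq (μ ^ 2) p x) +
      (-1) * Real.log (sq (μ ^ 2) (-p) x)))

lemma sq_pos {μ : ℝ} (hμ : 0 < μ) (q x : E4) : 0 < sq (μ ^ 2) q x := by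
  unfold sq
  positivity

lemma contDiff_logsq {μ : ℝ} (hμ : 0 < μ) (q : E4) :
    ContDiff ℝ (⊤ : ℕ∞) fun x : E4 => Real.log (sq (μ ^ 2) q x) :=
  (contDiff_sq _ _).log fun x => (sq_pos hμ q x).ne'

lemma contDiff_u0 (p : E4) {μ : ℝ} (hμ : 0 < μ) : ContDiff ℝ (⊤ : ℕ∞) (u0 p μ) := by
  have c1 : ContDiff ℝ (⊤ : ℕ∞) fun x : E4 => (-1) * Real.log (sq (μ ^ 2) p x) :=
    contDiff_const.mul (contDiff_logsq hμ p)
  have c2 : ContDiff ℝ (⊤ : ℕ∞) fun x : E4 => (-1) * Real.log (sq (μ ^ 2) (-p) x) :=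
    contDiff_const.mul (contDiff_logsq hμ (-p))
  have c3 : ContDiff ℝ (⊤ : ℕ∞) fun x : E4 => ‖x - 0‖ ^ 2 :=
    (contDiff_id.sub contDiff_const).norm_sq ℝ
  set A : ℝ := 2 / (μ ^ 2 + 4 * ‖p‖ ^ 2) with hA
  set B : ℝ := Real.log (2 * μ * (μ ^ 2 + 4 * ‖p‖ ^ 2)) + -(A * ‖p‖ ^ 2) with hB
  have hu : u0 p μ = fun x => B + (A * ‖x - 0‖ ^ 2 + ((-1) * Real.log (sq (μ ^ 2) p x) +
      (-1) * Real.log (sq (μ ^ 2) (-p) x))) := rfl
  rw [hu]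
  exact contDiff_const.add ((contDiff_const.mul c3).add (c1.add c2))

lemma lap_lap_add {f g : E4 → ℝ} (hf : ContDiff ℝ (⊤ : ℕ∞) f) (hg : ContDiff ℝ (⊤ : ℕ∞) g) :
    lap (lap (fun x => f x + g x)) = fun x => lap (lap f) x + lap (lap g) x := by
  rw [lap_add hf hg, lap_add (contDiff_lap_inf hf) (contDiff_lap_inf hg)]

lemma lap_lap_const_mul {f : E4 → ℝ} (c : ℝ) (hf : ContDiff ℝ (⊤ : ℕ∞) f) :
    lap (lap (fun x => c * f x)) = fun x => c * lap (lap f) x := by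
  rw [lap_const_mul c hf, lap_const_mul c (contDiff_lap_inf hf)]

lemma lap_lap_u0 (p : E4) {μ : ℝ} (hμ : 0 < μ) :
    lap (lap (u0 p μ)) = fun x => 96 * μ ^ 4 / (μ ^ 2 + ‖x - p‖ ^ 2) ^ 4 +
      96 * μ ^ 4 / (μ ^ 2 + ‖x - -p‖ ^ 2) ^ 4 := by
  have hm : 0 < μ ^ 2 := by positivity
  have c1 : ContDiff ℝ (⊤ : ℕ∞) fun x : E4 => (-1) * Real.log (sq (μ ^ 2) p x) :=
    contDiff_const.mul (contDiff_logsq hμ p)
  have c2 : ContDiff ℝ (⊤ : ℕ∞) fun x : E4 => (-1) * Real.log (sq (μ ^ 2) (-p) x) :=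
    contDiff_const.mul (contDiff_logsq hμ (-p))
  have c3 : ContDiff ℝ (⊤ : ℕ∞) fun x : E4 => ‖x - 0‖ ^ 2 :=
    (contDiff_id.sub contDiff_const).norm_sq ℝ
  set A : ℝ := 2 / (μ ^ 2 + 4 * ‖p‖ ^ 2) with hA
  set B : ℝ := Real.log (2 * μ * (μ ^ 2 + 4 * ‖p‖ ^ 2)) + -(A * ‖p‖ ^ 2) with hB
  have hu : u0 p μ = fun x => B + (A * ‖x - 0‖ ^ 2 + ((-1) * Real.log (sq (μ ^ 2) p x) +
      (-1) * Real.log (sq (μ ^ 2) (-p) x))) := rfl
  rw [hu, lap_lap_add contDiff_const ((contDiff_const.mul c3).add (c1.add c2)),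
    lap_lap_add (contDiff_const.mul c3) (c1.add c2), lap_lap_add c1 c2,
    lap_lap_const_mul _ (contDiff_logsq hμ p), lap_lap_const_mul _ (contDiff_logsq hμ (-p)),
    lap_lap_const_mul _ c3, lap_lap_log hm, lap_lap_log hm, lap_lap_sq, lap_const, lap_const]
  funext x
  unfold sq
  rw [← pow_mul]
  ring

lemma exp_u0 {p : E4} (hp : p ≠ 0) {μ : ℝ} (hμ : 0 < μ) (x : E4) :
    6 * Real.exp (4 * u0 p μ x) = μ ^ 4 * N p (μ, x) := by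
  have hb := bb_pos hp (μ, x)
  have h1 := sq_pos hμ p x
  have h2 := sq_pos hμ (-p) x
  have hlog : 4 * u0 p μ x = Real.log ((2 * μ * bb p (μ, x)) ^ 4) +
      (-Real.log (sq (μ ^ 2) p x ^ 4)) + (-Real.log (sq (μ ^ 2) (-p) x ^ 4)) +
      8 / bb p (μ, x) * (‖x‖ ^ 2 - ‖p‖ ^ 2) := by
    rw [Real.log_pow, Real.log_pow, Real.log_pow]
    unfold u0
    rw [sub_zero]
    push_cast
    ring
  rw [hlog, Real.exp_add, Real.exp_add, Real.exp_add, Real.exp_neg, Real.exp_neg,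
    Real.exp_log (by positivity), Real.exp_log (by positivity), Real.exp_log (by positivity)]
  have e1 : S p (μ, x) = sq (μ ^ 2) p x := rfl
  have e2 : S (-p) (μ, x) = sq (μ ^ 2) (-p) x := rfl
  unfold N
  rw [e1, e2]
  simp only
  field_simp
  ring


/-- Choice of the cutoff radius and of the concentration parameter. -/
lemma choice {p : E4} (hp : p ≠ 0) (hp2 : ‖p‖ < 1 / 2) {κ θ : ℝ} (hκ0 : 0 < κ) (hθ0 : 0 < θ) :
    ∃ ρ μ : ℝ, 0 < ρ ∧ ρ ≤ ‖p‖ ∧ 0 < μ ∧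
      (∀ x ∈ closedBall (0 : E4) 3, |FF p ρ (μ, x)| < θ ∧ ‖fderiv ℝ (fun y => FF p ρ (μ, y)) x‖ < θ) ∧
      (∀ x ∈ closedBall (0 : E4) 3, |chi p ρ x * W p (μ, x)| < κ ∧
        ‖fderiv ℝ (fun y => chi p ρ y * W p (μ, y)) x‖ < κ) ∧
      (∫ x in ball (0 : E4) 1, 96 * μ ^ 4 / (μ ^ 2 + ‖x - p‖ ^ 2) ^ 4) < 16 * Real.pi ^ 2 + κ ∧
      (∫ x in ball (0 : E4) 1, 96 * μ ^ 4 / (μ ^ 2 + ‖x - -p‖ ^ 2) ^ 4) < 16 * Real.pi ^ 2 + κ ∧
      16 * Real.pi ^ 2 - κ < (∫ x in ball (0 : E4) (2 * ‖p‖), 96 * μ ^ 4 / (μ ^ 2 + ‖x - p‖ ^ 2) ^ 4) ∧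
      16 * Real.pi ^ 2 - κ <
        ∫ x in ball (0 : E4) (2 * ‖p‖), 96 * μ ^ 4 / (μ ^ 2 + ‖x - -p‖ ^ 2) ^ 4 := by
  have hpn := norm_pos_iff.2 hp
  obtain ⟨ρ, hρ, hρp, hρW⟩ := exists_rho hp hκ0
  have hK : IsCompact (closedBall (0 : E4) 3) := isCompact_closedBall _ _
  have hFF := contDiff_FF hp hρ hρp
  have hFF0 : (fun y : E4 => FF p ρ (0, y)) = fun _ => 0 := by
    funext y
    simp [FF]
  have t1 := tube hFF hK (η := θ) (fun x _ => by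
    rw [hFF0]
    have : FF p ρ (0, x) = 0 := congrFun hFF0 x
    rw [this]
    simp [hθ0])
  have hcW : ContDiff ℝ (⊤ : ℕ∞) fun z : ℝ × E4 => chi p ρ z.2 * W p z :=
    ((contDiff_chi ρ).comp contDiff_snd).mul (contDiff_W hp)
  have t2 := tube hcW hK (η := κ) (fun x _ => hρW x)
  have hp1 : ‖p‖ < 1 := by linarith
  have hp2' : ‖p‖ < 2 * ‖p‖ := by linarith
  have hn1 : ‖-p‖ < 1 := by rwa [norm_neg]
  have hn2 : ‖-p‖ < 2 * ‖p‖ := by rwa [norm_neg]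
  have m1 := (tendsto_mass p hp1).eventually (gt_mem_nhds
    (show 16 * Real.pi ^ 2 < 16 * Real.pi ^ 2 + κ by linarith))
  have m2 := (tendsto_mass (-p) hn1).eventually (gt_mem_nhds
    (show 16 * Real.pi ^ 2 < 16 * Real.pi ^ 2 + κ by linarith))
  have m3 := (tendsto_mass p hp2').eventually (lt_mem_nhds
    (show 16 * Real.pi ^ 2 - κ < 16 * Real.pi ^ 2 by linarith))
  have m4 := (tendsto_mass (-p) hn2).eventually (lt_mem_nhds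
    (show 16 * Real.pi ^ 2 - κ < 16 * Real.pi ^ 2 by linarith))
  have t1' := Filter.Eventually.filter_mono (nhdsWithin_le_nhds (a := (0 : ℝ)) (s := Ioi 0)) t1
  have t2' := Filter.Eventually.filter_mono (nhdsWithin_le_nhds (a := (0 : ℝ)) (s := Ioi 0)) t2
  have hpos : ∀ᶠ μ : ℝ in 𝓝[>] (0 : ℝ), 0 < μ := eventually_mem_nhdsWithin
  obtain ⟨μ, ⟨⟨⟨⟨⟨⟨hμ, hT1⟩, hT2⟩, hM1⟩, hM2⟩, hM3⟩, hM4⟩⟩ :=
    ((((((hpos.and t1').and t2').and m1).and m2).and m3).and m4).exists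
  exact ⟨ρ, μ, hρ, hρp, hμ, hT1, hT2, hM1, hM2, hM3, hM4⟩

lemma exp_near {κ t : ℝ} (hκ1 : κ ≤ 1 / 100) (h1 : |t| ≤ κ) : |Real.exp (-4 * t) - 1| ≤ 8 * κ := by
  have h2 : |(-4 * t)| ≤ 4 * κ := by
    rw [abs_mul, abs_neg]
    norm_num
    exact h1
  have h3 : |(-4 * t)| ≤ 1 := h2.trans (by linarith)
  have h4 := Real.abs_exp_sub_one_le h3
  linarith

lemma Q_near {κ a b : ℝ} (hκ0 : 0 < κ) (hκ1 : κ ≤ 1 / 100) (h1 : |a - 1| ≤ 8 * κ) (h2 : |b| ≤ κ) :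
    |6 * (a * (1 + b)) - 6| ≤ 100 * κ := by
  have h3 : 6 * (a * (1 + b)) - 6 = 6 * ((a - 1) + b + (a - 1) * b) := by ring
  rw [h3, abs_mul]
  have h4 : |(a - 1) + b + (a - 1) * b| ≤ 8 * κ + κ + 8 * κ * κ := by
    refine (abs_add_le _ _).trans (add_le_add ((abs_add_le _ _).trans (add_le_add h1 h2)) ?_)
    rw [abs_mul]
    exact mul_le_mul h1 h2 (abs_nonneg _) (by positivity)
  have h5 : |(6 : ℝ)| = 6 := by norm_num
  rw [h5]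
  nlinarith

lemma Q_fderiv {κ : ℝ} (hκ0 : 0 < κ) (hκ1 : κ ≤ 1 / 100) {v w : E4 → ℝ}
    (hvs : ContDiff ℝ (⊤ : ℕ∞) v) (hws : ContDiff ℝ (⊤ : ℕ∞) w) {x : E4}
    (h0 : |v x| ≤ κ) (h4 : ‖fderiv ℝ v x‖ ≤ κ) (h2 : |w x| ≤ κ) (h3 : ‖fderiv ℝ w x‖ ≤ κ) :
    ‖fderiv ℝ (fun x => 6 * (Real.exp (-4 * v x) * (1 + w x))) x‖ ≤ 200 * κ := by
  have hvd : HasFDerivAt v (fderiv ℝ v x) x := ((hvs.differentiable (by simp)) x).hasFDerivAt
  have hwd : HasFDerivAt w (fderiv ℝ w x) x := ((hws.differentiable (by simp)) x).hasFDerivAt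
  have hE := (hvd.const_mul (-4)).exp
  have hW' := hwd.const_add 1
  have hQd' := ((hE.mul hW').const_mul 6)
  have hQd'' : fderiv ℝ (fun x => 6 * (Real.exp (-4 * v x) * (1 + w x))) x = _ := hQd'.fderiv
  rw [hQd'']
  have h1 := exp_near hκ1 h0
  have h5 : Real.exp (-4 * v x) ≤ 2 := by
    have := (abs_le.1 h1).2
    linarith
  have h6 : |1 + w x| ≤ 2 := by
    rw [abs_le]
    have := abs_le.1 h2
    constructor <;> linarith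
  have h7 : ‖Real.exp (-4 * v x) • fderiv ℝ w x‖ ≤ 2 * κ := by
    rw [norm_smul, Real.norm_eq_abs, abs_of_pos (Real.exp_pos _)]
    exact mul_le_mul h5 h3 (norm_nonneg _) (by norm_num)
  have h8 : ‖(1 + w x) • Real.exp (-4 * v x) • (-4 : ℝ) • fderiv ℝ v x‖ ≤ 2 * (2 * (4 * κ)) := by
    rw [norm_smul, norm_smul, norm_smul, Real.norm_eq_abs, Real.norm_eq_abs, Real.norm_eq_abs,
      abs_of_pos (Real.exp_pos _)]
    have h9 : |(-4 : ℝ)| = 4 := by norm_num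
    rw [h9]
    exact mul_le_mul h6 (mul_le_mul h5 (mul_le_mul_of_nonneg_left h4 (by norm_num)) (by positivity)
      (by norm_num)) (by positivity) (by norm_num)
  rw [norm_smul, Real.norm_eq_abs]
  have h5' : |(6 : ℝ)| = 6 := by norm_num
  rw [h5']
  have h10 := (norm_add_le (Real.exp (-4 * v x) • fderiv ℝ w x)
    ((1 + w x) • Real.exp (-4 * v x) • (-4 : ℝ) • fderiv ℝ v x)).trans (add_le_add h7 h8)
  have h11 : 6 * ‖Real.exp (-4 * v x) • fderiv ℝ w x +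
    (1 + w x) • Real.exp (-4 * v x) • (-4 : ℝ) • fderiv ℝ v x‖ ≤ 6 * (2 * κ + 2 * (2 * (4 * κ))) :=
    mul_le_mul_of_nonneg_left h10 (by norm_num)
  refine h11.trans ?_
  linarith

/-- The correction term. -/
lemma correction {f : E4 → ℝ} {θ κ : ℝ} (hθ0 : 0 < θ) (hθκ : CP * θ ≤ κ)
    (hfs : ContDiff ℝ (⊤ : ℕ∞) f) (hfz : ∀ x : E4, 2 ≤ ‖x‖ → f x = 0)
    (hb : ∀ x ∈ closedBall (0 : E4) 3, |f x| < θ ∧ ‖fderiv ℝ f x‖ < θ) :
    ∃ v : E4 → ℝ, ContDiff ℝ (⊤ : ℕ∞) v ∧ lap (lap v) = f ∧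
      (∀ x : E4, ‖x‖ ≤ 1 → |v x| ≤ κ ∧ ‖fderiv ℝ v x‖ ≤ κ) ∧ ∀ x, |f x| ≤ θ := by
  have hK : IsCompact (closedBall (0 : E4) 3) := isCompact_closedBall _ _
  have hfc : HasCompactSupport f := by
    refine HasCompactSupport.intro hK fun x hx => hfz x ?_
    rw [mem_closedBall_zero_iff, not_le] at hx
    linarith
  have hsupp : ∀ x, f x ≠ 0 → ‖x‖ ≤ 3 := by
    intro x hx
    by_contra hcon
    exact hx (hfz x (by linarith))
  have hsupp' : ∀ x, fderiv ℝ f x ≠ 0 → ‖x‖ ≤ 3 := by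
    intro x hx
    by_contra hcon
    apply hx
    have hev : f =ᶠ[𝓝 x] fun _ => 0 := by
      have hc : ContinuousAt (fun y : E4 => ‖y‖) x := by fun_prop
      filter_upwards [hc.eventually_const_lt (show (2 : ℝ) < ‖x‖ by linarith)] with y hy
      exact hfz y (le_of_lt hy)
    rw [hev.fderiv_eq]
    simp
  have hfb : ∀ x, |f x| ≤ θ := by
    intro x
    by_cases hx : x ∈ closedBall (0 : E4) 3
    · exact (hb x hx).1.le
    · rw [mem_closedBall_zero_iff, not_le] at hx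
      rw [hfz x (by linarith), abs_zero]
      exact hθ0.le
  have hfb' : ∀ x, ‖fderiv ℝ f x‖ ≤ θ := by
    intro x
    by_cases hx : x ∈ closedBall (0 : E4) 3
    · exact (hb x hx).2.le
    · by_cases h0 : fderiv ℝ f x = 0
      · rw [h0, norm_zero]
        exact hθ0.le
      · exfalso
        exact hx (mem_closedBall_zero_iff.2 (hsupp' x h0))
  exact ⟨pot f, contDiff_pot hfs hfc, lap_lap_pot hfs hfc, fun x hx =>
    ⟨(pot_bound hfs.continuous hfc hsupp hfb hx).trans hθκ,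
      (fderiv_pot_bound hfs hfc hsupp' hfb' hx).trans hθκ⟩, hfb⟩

lemma Q_exp {p : E4} (hp : p ≠ 0) {μ : ℝ} (hμ : 0 < μ) (v w : ℝ) (x : E4) :
    6 * (Real.exp (-4 * v) * (1 + w)) * Real.exp (4 * (u0 p μ x + v)) =
      μ ^ 4 * N p (μ, x) * (1 + w) := by
  rw [← exp_u0 hp hμ x]
  have h1 : Real.exp (4 * (u0 p μ x + v)) = Real.exp (4 * u0 p μ x) * Real.exp (4 * v) := by
    rw [← Real.exp_add]
    ring_nf
  have h2 : Real.exp (-4 * v) * Real.exp (4 * v) = 1 := by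
    rw [← Real.exp_add]
    simp
  rw [h1]
  calc 6 * (Real.exp (-4 * v) * (1 + w)) * (Real.exp (4 * u0 p μ x) * Real.exp (4 * v))
      = 6 * Real.exp (4 * u0 p μ x) * (1 + w) * (Real.exp (-4 * v) * Real.exp (4 * v)) := by
        ring
    _ = _ := by rw [h2, mul_one]

lemma eq_aux {p : E4} (hp : p ≠ 0) {ρ μ : ℝ} (hμ : 0 < μ) {x : E4} (hx : ‖x‖ ≤ 1) :
    (96 * μ ^ 4 / (μ ^ 2 + ‖x - p‖ ^ 2) ^ 4 + 96 * μ ^ 4 / (μ ^ 2 + ‖x - -p‖ ^ 2) ^ 4) +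
      FF p ρ (μ, x) = μ ^ 4 * N p (μ, x) * (1 + chi p ρ x * W p (μ, x)) := by
  have hS1 : S p (μ, x) ≠ 0 := (sq_pos hμ p x).ne'
  have hS2 : S (-p) (μ, x) ≠ 0 := (sq_pos hμ (-p) x).ne'
  have h3 := N_mul_one_add_W hp hS1 hS2
  have h4 : FF p ρ (μ, x) = μ ^ 4 * ((chi p ρ x - 1) * N p (μ, x) * W p (μ, x)) :=
    FF_of_le_one hx
  have h5 : 96 * μ ^ 4 / (μ ^ 2 + ‖x - p‖ ^ 2) ^ 4 + 96 * μ ^ 4 / (μ ^ 2 + ‖x - -p‖ ^ 2) ^ 4 =
      μ ^ 4 * (N p (μ, x) * (1 + W p (μ, x))) := by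
    rw [h3]
    simp only [S]
    ring
  rw [h4, h5]
  ring

lemma continuous_bubble {μ : ℝ} (hμ : 0 < μ) (q : E4) :
    Continuous fun x : E4 => 96 * μ ^ 4 / (μ ^ 2 + ‖x - q‖ ^ 2) ^ 4 := by
  refine continuous_const.div (by fun_prop) fun x => ?_
  positivity

lemma integrableOn_ball {g : E4 → ℝ} (hg : Continuous g) (r : ℝ) :
    IntegrableOn g (ball (0 : E4) r) :=
  (hg.continuousOn.integrableOn_compact (isCompact_closedBall (0 : E4) r)).mono_set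
    ball_subset_closedBall

lemma mass_eq {g f : E4 → ℝ} {p : E4} {μ : ℝ} (hμ : 0 < μ) (hg : Continuous g) (hf : Continuous f)
    (hg0 : ∀ x, 0 ≤ g x) {r : ℝ}
    (h : ∀ x ∈ ball (0 : E4) r, g x = (96 * μ ^ 4 / (μ ^ 2 + ‖x - p‖ ^ 2) ^ 4 +
      96 * μ ^ 4 / (μ ^ 2 + ‖x - -p‖ ^ 2) ^ 4) + f x) :
    ∫⁻ x in ball (0 : E4) r, ENNReal.ofReal (g x) =
      ENNReal.ofReal ((∫ x in ball (0 : E4) r, 96 * μ ^ 4 / (μ ^ 2 + ‖x - p‖ ^ 2) ^ 4) +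
        (∫ x in ball (0 : E4) r, 96 * μ ^ 4 / (μ ^ 2 + ‖x - -p‖ ^ 2) ^ 4) +
        ∫ x in ball (0 : E4) r, f x) := by
  have hB1 := continuous_bubble hμ p
  have hB2 := continuous_bubble hμ (-p)
  rw [← ofReal_integral_eq_lintegral_ofReal (integrableOn_ball hg r) (Eventually.of_forall hg0)]
  congr 1
  have hI : IntegrableOn (fun x => 96 * μ ^ 4 / (μ ^ 2 + ‖x - p‖ ^ 2) ^ 4 +
      96 * μ ^ 4 / (μ ^ 2 + ‖x - -p‖ ^ 2) ^ 4) (ball (0 : E4) r) :=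
    (integrableOn_ball hB1 r).add (integrableOn_ball hB2 r)
  rw [← integral_add (integrableOn_ball hB1 r) (integrableOn_ball hB2 r),
    ← integral_add hI (integrableOn_ball hf r)]
  exact setIntegral_congr_fun measurableSet_ball fun x hx => h x hx

lemma small_integral {f : E4 → ℝ} {θ κ : ℝ} (hθκ' : θ ≤ κ) (hκ0 : 0 < κ)
    (hfb : ∀ x, |f x| ≤ θ) {r : ℝ} (hr : r ≤ 1) : |∫ x in ball (0 : E4) r, f x| ≤ 10 * κ := by
  have h1 : ‖∫ x in ball (0 : E4) r, f x‖ ≤ θ * (volume : Measure E4).real (ball (0 : E4) r) :=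
    norm_setIntegral_le_of_norm_le_const measure_ball_lt_top fun x _ => by
      rw [Real.norm_eq_abs]
      exact hfb x
  have h2 : (volume : Measure E4).real (ball (0 : E4) r) ≤ Real.pi ^ 2 / 2 := by
    rw [← volume_ball_one]
    exact measureReal_mono (ball_subset_ball hr) measure_ball_lt_top.ne
  have h3 := Real.pi_le_four
  have h4 := Real.pi_pos
  rw [Real.norm_eq_abs] at h1
  have h5 : Real.pi ^ 2 / 2 ≤ 10 := by
    nlinarith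
  calc |∫ x in ball (0 : E4) r, f x| ≤ θ * (volume : Measure E4).real (ball (0 : E4) r) := h1
    _ ≤ κ * 10 := mul_le_mul hθκ' (h2.trans h5) measureReal_nonneg hκ0.le
    _ = 10 * κ := by ring

lemma params {η : ℝ} (hη : 0 < η) : ∃ κ θ : ℝ, 0 < κ ∧ κ ≤ 1 / 100 ∧ 1000 * κ ≤ η ∧ 0 < θ ∧
    CP * θ ≤ κ ∧ θ ≤ κ := by
  have hCP := CP_nonneg
  refine ⟨min (1 / 100) (η / 1000), min (1 / 100) (η / 1000) / (CP + 1), by positivity,
    min_le_left _ _, ?_, by positivity, ?_, ?_⟩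
  · have := min_le_right (1 / 100) (η / 1000)
    linarith
  · have h0 : 0 < min (1 / 100) (η / 1000) := by positivity
    rw [mul_div_assoc', div_le_iff₀ (by positivity)]
    nlinarith
  · have h0 : 0 < min (1 / 100) (η / 1000) := by positivity
    rw [div_le_iff₀ (by positivity)]
    nlinarith

/-- The family of approximate two-bubble solutions. -/
lemma main_lemma {p : E4} (hp : p ≠ 0) (hp2 : ‖p‖ < 1 / 2) {η : ℝ} (hη : 0 < η) :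
    ∃ u Q : E4 → ℝ, ContDiff ℝ (⊤ : ℕ∞) u ∧ ContDiff ℝ (⊤ : ℕ∞) Q ∧
      (∀ x ∈ ball (0 : E4) 1, lap (lap u) x = Q x * Real.exp (4 * u x)) ∧
      (∀ x ∈ ball (0 : E4) 1, |Q x - 6| ≤ η) ∧ (∀ x ∈ ball (0 : E4) 1, ‖fderiv ℝ Q x‖ ≤ η) ∧
      (∀ x ∈ ball (0 : E4) 1, 5 ≤ Q x) ∧
      ∫⁻ x in ball (0 : E4) 1, ENNReal.ofReal (|Q x| * Real.exp (4 * u x)) ≤
        ENNReal.ofReal (32 * Real.pi ^ 2 + η) ∧
      ENNReal.ofReal (32 * Real.pi ^ 2 - η) ≤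
        ∫⁻ x in ball (0 : E4) (2 * ‖p‖), ENNReal.ofReal (|Q x| * Real.exp (4 * u x)) := by
  obtain ⟨κ, θ, hκ0, hκ1, hκη, hθ0, hθκ, hθκ'⟩ := params hη
  obtain ⟨ρ, μ, hρ, hρp, hμ0, hT1, hT2, hM1, hM2, hM3, hM4⟩ := choice hp hp2 hκ0 hθ0
  have hfs : ContDiff ℝ (⊤ : ℕ∞) (fun x => FF p ρ (μ, x)) :=
    (contDiff_FF hp hρ hρp).comp (contDiff_const.prodMk contDiff_id)
  have hws : ContDiff ℝ (⊤ : ℕ∞) (fun x => chi p ρ x * W p (μ, x)) :=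
    (contDiff_chi ρ).mul ((contDiff_W hp).comp (contDiff_const.prodMk contDiff_id))
  obtain ⟨v, hvs, hvl, hvb, hfb⟩ := correction hθ0 hθκ hfs (fun x hx => FF_eq_zero hx) hT1
  have hwb : ∀ x : E4, ‖x‖ ≤ 1 → |chi p ρ x * W p (μ, x)| ≤ κ ∧
      ‖fderiv ℝ (fun y => chi p ρ y * W p (μ, y)) x‖ ≤ κ := by
    intro x hx
    have hx3 : x ∈ closedBall (0 : E4) 3 := mem_closedBall_zero_iff.2 (by linarith)
    exact ⟨(hT2 x hx3).1.le, (hT2 x hx3).2.le⟩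
  obtain ⟨w, hw⟩ : ∃ w : E4 → ℝ, w = fun x => chi p ρ x * W p (μ, x) := ⟨_, rfl⟩
  obtain ⟨f, hf⟩ : ∃ f : E4 → ℝ, f = fun x => FF p ρ (μ, x) := ⟨_, rfl⟩
  rw [← hw] at hws
  rw [← hf] at hfs hvl
  have hfb' : ∀ x, |f x| ≤ θ := by rw [hf]; exact hfb
  have hwb' : ∀ x : E4, ‖x‖ ≤ 1 → |w x| ≤ κ ∧ ‖fderiv ℝ w x‖ ≤ κ := by rw [hw]; exact hwb
  have heqa : ∀ x : E4, ‖x‖ ≤ 1 → (96 * μ ^ 4 / (μ ^ 2 + ‖x - p‖ ^ 2) ^ 4 +
      96 * μ ^ 4 / (μ ^ 2 + ‖x - -p‖ ^ 2) ^ 4) + f x = μ ^ 4 * N p (μ, x) * (1 + w x) := by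
    intro x hx
    rw [hf, hw]
    exact eq_aux hp hμ0 hx
  have hus : ContDiff ℝ (⊤ : ℕ∞) (fun x => u0 p μ x + v x) := (contDiff_u0 p hμ0).add hvs
  have hQs : ContDiff ℝ (⊤ : ℕ∞) (fun x => 6 * (Real.exp (-4 * v x) * (1 + w x))) :=
    contDiff_const.mul ((contDiff_const.mul hvs).exp.mul (contDiff_const.add hws))
  have hlapu : lap (lap (fun x => u0 p μ x + v x)) =
      fun x => (96 * μ ^ 4 / (μ ^ 2 + ‖x - p‖ ^ 2) ^ 4 +
      96 * μ ^ 4 / (μ ^ 2 + ‖x - -p‖ ^ 2) ^ 4) + f x := by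
    rw [lap_lap_add (contDiff_u0 p hμ0) hvs, lap_lap_u0 p hμ0, hvl]
  have hQ6 : ∀ x : E4, ‖x‖ ≤ 1 → |6 * (Real.exp (-4 * v x) * (1 + w x)) - 6| ≤ 100 * κ :=
    fun x hx => Q_near hκ0 hκ1 (exp_near hκ1 (hvb x hx).1) (hwb' x hx).1
  have hQ5 : ∀ x : E4, ‖x‖ ≤ 1 → 5 ≤ 6 * (Real.exp (-4 * v x) * (1 + w x)) := by
    intro x hx
    have h1 := (abs_le.1 (hQ6 x hx)).1
    linarith
  have hgx : ∀ x ∈ ball (0 : E4) 1, |6 * (Real.exp (-4 * v x) * (1 + w x))| *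
      Real.exp (4 * (u0 p μ x + v x)) = (96 * μ ^ 4 / (μ ^ 2 + ‖x - p‖ ^ 2) ^ 4 +
      96 * μ ^ 4 / (μ ^ 2 + ‖x - -p‖ ^ 2) ^ 4) + f x := by
    intro x hx
    have hx1 : ‖x‖ ≤ 1 := (mem_ball_zero_iff.1 hx).le
    have h1 := hQ5 x hx1
    rw [abs_of_pos (by linarith), heqa x hx1, Q_exp hp hμ0]
  have hgc : Continuous fun x => |6 * (Real.exp (-4 * v x) * (1 + w x))| *
      Real.exp (4 * (u0 p μ x + v x)) :=
    hQs.continuous.abs.mul (Real.continuous_exp.comp (continuous_const.mul hus.continuous))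
  have hg0 : ∀ x, 0 ≤ |6 * (Real.exp (-4 * v x) * (1 + w x))| *
      Real.exp (4 * (u0 p μ x + v x)) := fun x => mul_nonneg (abs_nonneg _) (Real.exp_pos _).le
  refine ⟨fun x => u0 p μ x + v x, fun x => 6 * (Real.exp (-4 * v x) * (1 + w x)), hus, hQs,
    ?_, ?_, ?_, ?_, ?_, ?_⟩
  · intro x hx
    have hx1 : ‖x‖ ≤ 1 := (mem_ball_zero_iff.1 hx).le
    rw [hlapu]
    simp only
    rw [heqa x hx1, Q_exp hp hμ0]
  · intro x hx
    exact (hQ6 x (mem_ball_zero_iff.1 hx).le).trans (by linarith)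
  · intro x hx
    have hx1 : ‖x‖ ≤ 1 := (mem_ball_zero_iff.1 hx).le
    exact (Q_fderiv hκ0 hκ1 hvs hws (hvb x hx1).1 (hvb x hx1).2 (hwb' x hx1).1
      (hwb' x hx1).2).trans (by linarith)
  · intro x hx
    exact hQ5 x (mem_ball_zero_iff.1 hx).le
  · rw [mass_eq hμ0 hgc hfs.continuous hg0 hgx]
    apply ENNReal.ofReal_le_ofReal
    have h1 := (abs_le.1 (small_integral hθκ' hκ0 hfb' (r := 1) le_rfl)).2
    linarith
  · have hr : 2 * ‖p‖ ≤ 1 := by linarith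
    rw [mass_eq hμ0 hgc hfs.continuous hg0 fun x hx => hgx x (ball_subset_ball hr hx)]
    apply ENNReal.ofReal_le_ofReal
    have h1 := (abs_le.1 (small_integral hθκ' hκ0 hfb' (r := 2 * ‖p‖) hr)).1
    linarith

end Pool.Agent.Q4
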